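import Pool.Agent.H54.PD.Emb

/-!
# Admissible graphs embed into structured graphs
-/

set_option autoImplicit false

namespace Pool.Agent.H54.PD

open SimpleGraph Finset

section Arith

/-- the parameters of a structured graph -/
lemma arith_core {a b1 b2 δ s P1 P2 Q : ℕ} (h1 : a + b1 = δ + 1 + P1) (h2 : a + b2 = δ + 1 + P2)
    (h3 : b1 + b2 = δ + Q) (h : 2 * s * (a + b1 + b2) + 1 ≤ (3 * s + 1) * δ) :
    b2 + P1 + 1 = a + Q ∧ b1 + P2 + 1 = a + Q ∧
      (s + 1) * (Q + P1 + P2 + 2) + 1 ≤ 2 * (a + Q) := by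
  have e1 : b2 + P1 + 1 = a + Q := by omega
  have e2 : b1 + P2 + 1 = a + Q := by omega
  refine ⟨e1, e2, ?_⟩
  zify at *
  have hd : (δ : ℤ) = 2 * (a + Q) - (Q + P1 + P2 + 2) := by linarith
  have hn : (a + b1 + b2 : ℤ) = 3 * (a + Q) - (Q + P1 + P2 + 2) := by linarith
  rw [hn, hd] at h
  nlinarith

lemma arith_zero {a b1 s P1 P2 Q e0 e2 : ℕ} (hs : 1 ≤ s) (hb : b1 + P2 + 1 = a + Q)
    (hP : P1 ≤ P2) (h : (s + 1) * (Q + P1 + P2 + 2) + 1 ≤ 2 * (a + Q)) (h0 : e0 ≤ s)
    (h2 : 2 * e2 ≤ s + 1) : s + (e0 * P1 + e2 * Q) < b1 := by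
  have k1 : e0 * P1 ≤ s * P1 := Nat.mul_le_mul_right _ h0
  have k2 : 2 * (e2 * Q) ≤ (s + 1) * Q := by
    rw [← Nat.mul_assoc]
    exact Nat.mul_le_mul_right _ h2
  obtain ⟨r, rfl⟩ : ∃ r, P2 = P1 + r := ⟨P2 - P1, by omega⟩
  obtain ⟨u, rfl⟩ : ∃ u, s = u + 1 := ⟨s - 1, by omega⟩
  have k3 : 0 ≤ u * r := Nat.zero_le _
  by_contra hcon
  push Not at hcon
  have k4 : 2 * (a + Q) ≤ 2 * ((u + 1) + (e0 * P1 + e2 * Q) + (P1 + r) + 1) := by omega
  have k5 : (u + 1 + 1) * (Q + P1 + (P1 + r) + 2) + 1 =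
      (u + 1 + 1) * Q + 2 * ((u + 1) * P1) + 2 * P1 + u * r + 2 * r + 2 * u + 5 := by ring
  omega

lemma arith_one {a b2 s P1 P2 Q e1 e2 : ℕ} (hs : 1 ≤ s) (hb : b2 + P1 + 1 = a + Q)
    (h : (s + 1) * (Q + P1 + P2 + 2) + 1 ≤ 2 * (a + Q)) (h1 : 2 * e1 ≤ s + 1)
    (h2 : 2 * e2 ≤ s + 1) : s + (e1 * P2 + e2 * Q) < b2 := by
  have k1 : 2 * (e1 * P2) ≤ (s + 1) * P2 := by
    rw [← Nat.mul_assoc]
    exact Nat.mul_le_mul_right _ h1
  have k2 : 2 * (e2 * Q) ≤ (s + 1) * Q := by
    rw [← Nat.mul_assoc]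
    exact Nat.mul_le_mul_right _ h2
  obtain ⟨u, rfl⟩ : ∃ u, s = u + 1 := ⟨s - 1, by omega⟩
  by_contra hcon
  push Not at hcon
  have k5 : (u + 1 + 1) * (Q + P1 + P2 + 2) + 1 =
      (u + 1 + 1) * Q + (u + 1 + 1) * P2 + u * P1 + 2 * P1 + 2 * u + 5 := by ring
  have k6 : 0 ≤ u * P1 := Nat.zero_le _
  omega

lemma arith_two {a s P1 P2 Q e0 e1 : ℕ} (hs : 1 ≤ s) (hP : P1 ≤ P2)
    (h : (s + 1) * (Q + P1 + P2 + 2) + 1 ≤ 2 * (a + Q)) (h0 : e0 + e1 ≤ s + 1)
    (h1 : 2 * e1 ≤ s + 1) : (s + 1) + (e0 * P1 + e1 * P2) < a := by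
  obtain ⟨r, rfl⟩ : ∃ r, P2 = P1 + r := ⟨P2 - P1, by omega⟩
  have k1 : (e0 + e1) * P1 ≤ (s + 1) * P1 := Nat.mul_le_mul_right _ h0
  have k2 : 2 * (e1 * r) ≤ (s + 1) * r := by
    rw [← Nat.mul_assoc]
    exact Nat.mul_le_mul_right _ h1
  obtain ⟨u, rfl⟩ : ∃ u, s = u + 1 := ⟨s - 1, by omega⟩
  by_contra hcon
  push Not at hcon
  have k5 : (u + 1 + 1) * (Q + P1 + (P1 + r) + 2) + 1 =
      u * Q + 2 * Q + 2 * ((u + 1 + 1) * P1) + (u + 1 + 1) * r + 2 * u + 5 := by ring
  have k6 : 0 ≤ u * Q := Nat.zero_le _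
  have k7 : e0 * P1 + e1 * (P1 + r) = (e0 + e1) * P1 + e1 * r := by ring
  omega

end Arith

section Adm

variable {W : Type*} [Fintype W]

open Classical in
/-- the number of neighbours of `v` in the class `c` which come before `v` in the order `f` -/
noncomputable def bk (H : SimpleGraph W) (f : W → ℕ) (cls : W → Fin 3) (v : W) (c : Fin 3) : ℕ :=
  (univ.filter fun w => f w < f v ∧ H.Adj w v ∧ cls w = c).card

open Classical in
/-- `H` is `s`-admissible -/
def Admissible (H : SimpleGraph W) (s : ℕ) : Prop :=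
  ∃ (cls : W → Fin 3) (f : W → ℕ), Function.Injective f ∧
    (∀ v w, H.Adj v w → ¬ (cls v = 2 ∧ cls w = 2)) ∧
    (∀ v w, H.Adj v w → ¬ (cls v = 0 ∧ cls w = 1)) ∧
    (univ.filter fun v => cls v = 2).card ≤ s + 2 ∧
    (univ.filter fun v => cls v = 0).card ≤ s + 1 ∧
    (univ.filter fun v => cls v = 1).card ≤ s + 1 ∧
    ∀ v, (cls v = 0 → 2 * bk H f cls v 2 ≤ s + 1) ∧
      (cls v = 1 → 2 * bk H f cls v 2 ≤ s + 1 ∧ 2 * bk H f cls v 1 ≤ s + 1) ∧
      (cls v = 2 → 2 * bk H f cls v 1 ≤ s + 1 ∧ bk H f cls v 0 + bk H f cls v 1 ≤ s + 1)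

variable {V : Type*} [Fintype V] {G : SimpleGraph V} [DecidableRel G.Adj] {δ : ℕ}

/-- the missed vertices of a neighbourhood inside a set -/
lemma missed_in [DecidableEq V] (hδ : ∀ v, δ ≤ G.degree v) (x : V) (S T : Finset V)
    (hS : ∀ y ∈ S, y ∈ T ∧ ¬ G.Adj x y) (hT : ∀ y, G.Adj x y → y ∈ T) :
    S.card + δ ≤ T.card := by
  have hd : Disjoint S (G.neighborFinset x) := by
    rw [Finset.disjoint_left]
    intro y hy hy'
    rw [SimpleGraph.mem_neighborFinset] at hy'
    exact (hS y hy).2 hy'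
  have h1 := Finset.card_union_of_disjoint hd
  have h2 : S ∪ G.neighborFinset x ⊆ T := by
    intro y hy
    rw [mem_union, SimpleGraph.mem_neighborFinset] at hy
    rcases hy with hy | hy
    · exact (hS y hy).1
    · exact hT y hy
  have h2 := Finset.card_le_card h2
  have h3 := hδ x
  rw [← G.card_neighborFinset_eq_degree] at h3
  omega

theorem embed_of_admissible {H : SimpleGraph W} {s : ℕ} (hs : 1 ≤ s) (hH : Admissible H s)
    (hδ : ∀ v, δ ≤ G.degree v) (cl : V → Fin 3) (hcl : Function.Surjective cl)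
    (hI : ∀ p q, G.Adj p q → ¬ (cl p = 2 ∧ cl q = 2))
    (hK : ∀ p q, G.Adj p q → ¬ (cl p = 0 ∧ cl q = 1))
    (h01 : (univ.filter fun x => cl x = 0).card ≤ (univ.filter fun x => cl x = 1).card)
    (hbig : 2 * s * Fintype.card V + 1 ≤ (3 * s + 1) * δ) : H ⊑ G := by
  classical
  obtain ⟨cls, f, hf, hJ, hL, hJc, hL1c, hL2c, hbk⟩ := hH
  set a := (univ.filter fun x => cl x = 2).card with ha
  set b1 := (univ.filter fun x => cl x = 0).card with hb1
  set b2 := (univ.filter fun x => cl x = 1).card with hb2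
  have hc3 : ∀ c : Fin 3, c = 0 ∨ c = 1 ∨ c = 2 := by decide
  have hn : a + b1 + b2 = Fintype.card V := by
    have := Finset.card_eq_sum_card_fiberwise (s := (univ : Finset V)) (t := (univ : Finset (Fin 3)))
      (f := cl) (fun _ _ => Finset.mem_coe.2 (mem_univ _))
    rw [card_univ, Fin.sum_univ_three] at this
    omega
  -- unions of two classes
  have hU : ∀ c c' : Fin 3, c ≠ c' → (univ.filter fun x => cl x = c ∨ cl x = c').card =
      (univ.filter fun x => cl x = c).card + (univ.filter fun x => cl x = c').card := by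
    intro c c' hcc
    rw [← Finset.card_union_of_disjoint, ← Finset.filter_or]
    rw [Finset.disjoint_left]
    intro x hx hx'
    rw [mem_filter] at hx hx'
    exact hcc (hx.2.symm.trans hx'.2)
  have hn0 : ∀ x y, cl x = 0 → G.Adj x y → cl y = 2 ∨ cl y = 0 := by
    intro x y hx hadj
    rcases hc3 (cl y) with h | h | h
    · exact Or.inr h
    · exact absurd ⟨hx, h⟩ (hK x y hadj)
    · exact Or.inl h
  have hn1 : ∀ x y, cl x = 1 → G.Adj x y → cl y = 2 ∨ cl y = 1 := by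
    intro x y hx hadj
    rcases hc3 (cl y) with h | h | h
    · exact absurd ⟨h, hx⟩ (hK y x hadj.symm)
    · exact Or.inr h
    · exact Or.inl h
  have hn2 : ∀ x y, cl x = 2 → G.Adj x y → cl y = 0 ∨ cl y = 1 := by
    intro x y hx hadj
    rcases hc3 (cl y) with h | h | h
    · exact Or.inl h
    · exact Or.inr h
    · exact absurd ⟨hx, h⟩ (hI x y hadj)
  -- the general counting for a vertex of a clique class
  have hmiss0 : ∀ (c : Fin 3), c ≠ 2 → (∀ x y, cl x = c → G.Adj x y → cl y = 2 ∨ cl y = c) →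
      ∀ (x : V), cl x = c → ∀ S : Finset V,
      (∀ y ∈ S, (cl y = 2 ∨ cl y = c) ∧ y ≠ x ∧ ¬ G.Adj x y) →
      S.card + δ + 1 ≤ a + (univ.filter fun x => cl x = c).card := by
    intro c hc hcn x hx S hS
    have h1 := missed_in hδ x S ((univ.filter fun y => cl y = 2 ∨ cl y = c).erase x) ?_ ?_
    · rw [Finset.card_erase_of_mem, hU 2 c hc.symm] at h1
      · have h2 : 0 < (univ.filter fun x => cl x = c).card :=
          Finset.card_pos.2 ⟨x, by rw [mem_filter]; exact ⟨mem_univ _, hx⟩⟩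
        omega
      · rw [mem_filter]
        exact ⟨mem_univ _, Or.inr hx⟩
    · intro y hy
      obtain ⟨h2, h3, h4⟩ := hS y hy
      rw [mem_erase, mem_filter]
      exact ⟨⟨h3, mem_univ _, h2⟩, h4⟩
    · intro y hy
      rw [mem_erase, mem_filter]
      exact ⟨hy.ne.symm, mem_univ _, hcn x y hx hy⟩
  have hmiss2 : ∀ (x : V), cl x = 2 → ∀ S : Finset V,
      (∀ y ∈ S, (cl y = 0 ∨ cl y = 1) ∧ ¬ G.Adj x y) → S.card + δ ≤ b1 + b2 := by
    intro x hx S hS
    have h1 := missed_in hδ x S (univ.filter fun y => cl y = 0 ∨ cl y = 1) ?_ ?_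
    · rw [hU 0 1 (by decide)] at h1
      exact h1
    · intro y hy
      obtain ⟨h2, h3⟩ := hS y hy
      rw [mem_filter]
      exact ⟨⟨mem_univ _, h2⟩, h3⟩
    · intro y hy
      rw [mem_filter]
      exact ⟨mem_univ _, hn2 x y hx hy⟩
  obtain ⟨x0, hx0⟩ := hcl 0
  obtain ⟨x1, hx1⟩ := hcl 1
  obtain ⟨x2, hx2⟩ := hcl 2
  have e1 := hmiss0 0 (by decide) hn0 x0 hx0 ∅ (by simp)
  have e2 := hmiss0 1 (by decide) hn1 x1 hx1 ∅ (by simp)
  have e3 := hmiss2 x2 hx2 ∅ (by simp)
  rw [card_empty] at e1 e2 e3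
  obtain ⟨P1, hP1⟩ : ∃ P1, a + b1 = δ + 1 + P1 := ⟨a + b1 - (δ + 1), by omega⟩
  obtain ⟨P2, hP2⟩ : ∃ P2, a + b2 = δ + 1 + P2 := ⟨a + b2 - (δ + 1), by omega⟩
  obtain ⟨Q, hQ⟩ : ∃ Q, b1 + b2 = δ + Q := ⟨b1 + b2 - δ, by omega⟩
  rw [← hn] at hbig
  obtain ⟨c1, c2, c3⟩ := arith_core hP1 hP2 hQ hbig
  have hP12 : P1 ≤ P2 := by omega
  let M : Fin 3 → Fin 3 → ℕ := fun c _ => if c = 0 then P1 else if c = 1 then P2 else Q
  have hM0 : ∀ c, M 0 c = P1 := fun c => by simp [M]
  have hM1 : ∀ c, M 1 c = P2 := fun c => by simp [M]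
  have hM2 : ∀ c, M 2 c = Q := fun c => by simp [M]
  haveI : Nonempty V := ⟨x0⟩
  refine embed_of_counts f hf cls cl M ?_ ?_
  · intro v w x hadj hx S hS
    rcases hc3 (cls w) with hw | hw | hw
    · rw [hw, hM0 (cls v)]
      rw [hw] at hx
      have hv : cls v = 2 ∨ cls v = 0 := by
        rcases hc3 (cls v) with h | h | h
        · exact Or.inr h
        · exact absurd ⟨hw, h⟩ (hL w v hadj)
        · exact Or.inl h
      have h1 := hmiss0 0 (by decide) hn0 x hx S (fun y hy => by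
        obtain ⟨h2, h3, h4⟩ := hS y hy
        refine ⟨?_, h3, h4⟩
        rw [h2]
        exact hv)
      omega
    · rw [hw, hM1 (cls v)]
      rw [hw] at hx
      have hv : cls v = 2 ∨ cls v = 1 := by
        rcases hc3 (cls v) with h | h | h
        · exact absurd ⟨h, hw⟩ (hL v w hadj.symm)
        · exact Or.inr h
        · exact Or.inl h
      have h1 := hmiss0 1 (by decide) hn1 x hx S (fun y hy => by
        obtain ⟨h2, h3, h4⟩ := hS y hy
        refine ⟨?_, h3, h4⟩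
        rw [h2]
        exact hv)
      omega
    · rw [hw, hM2 (cls v)]
      rw [hw] at hx
      have hv : cls v = 0 ∨ cls v = 1 := by
        rcases hc3 (cls v) with h | h | h
        · exact Or.inl h
        · exact Or.inr h
        · exact absurd ⟨hw, h⟩ (hJ w v hadj)
      have h1 := hmiss2 x hx S (fun y hy => by
        obtain ⟨h2, h3, h4⟩ := hS y hy
        refine ⟨?_, h4⟩
        rw [h2]
        exact hv)
      omega
  · intro v
    have hsum : ∑ w ∈ univ.filter (fun w => f w < f v ∧ H.Adj w v), M (cls w) (cls v) =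
        bk H f cls v 0 * P1 + bk H f cls v 1 * P2 + bk H f cls v 2 * Q := by
      rw [← Finset.sum_fiberwise (univ.filter (fun w => f w < f v ∧ H.Adj w v)) cls
        (fun w => M (cls w) (cls v)), Fin.sum_univ_three]
      have h1 : ∀ c : Fin 3, ∑ w ∈ (univ.filter (fun w => f w < f v ∧ H.Adj w v)).filter
          (fun w => cls w = c), M (cls w) (cls v) = bk H f cls v c * M c (cls v) := by
        intro c
        rw [Finset.sum_congr rfl (g := fun _ => M c (cls v)), Finset.sum_const, smul_eq_mul,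
          Finset.filter_filter]
        · unfold bk
          congr 2
          ext w
          simp only [mem_filter, mem_univ, true_and, and_assoc]
        · intro w hw
          rw [mem_filter] at hw
          rw [hw.2]
      rw [h1 0, h1 1, h1 2, hM0 (cls v), hM1 (cls v), hM2 (cls v)]
    rw [hsum]
    have hearly : (univ.filter fun w => f w < f v ∧ cls w = cls v).card + 1 ≤
        (univ.filter fun w => cls w = cls v).card := by
      refine Finset.card_lt_card ?_
      rw [Finset.ssubset_iff_of_subset]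
      · exact ⟨v, by simp, by simp⟩
      · intro w hw
        rw [mem_filter] at hw ⊢
        exact ⟨mem_univ _, hw.2.2⟩
    have hbkle : bk H f cls v (cls v) ≤
        (univ.filter fun w => f w < f v ∧ cls w = cls v).card := by
      refine Finset.card_le_card ?_
      intro w hw
      rw [mem_filter] at hw ⊢
      exact ⟨mem_univ _, hw.2.1, hw.2.2.2⟩
    have hbk0 : ∀ c, (∀ w, H.Adj w v → cls w ≠ c) → bk H f cls v c = 0 := by
      intro c hc
      unfold bk
      rw [Finset.card_eq_zero, Finset.filter_eq_empty_iff]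
      rintro w - ⟨_, h2, h3⟩
      exact hc w h2 h3
    rcases hc3 (cls v) with hv | hv | hv
    · rw [hv] at hearly hbkle ⊢
      rw [hbk0 1 (fun w hw h => hL v w hw.symm ⟨hv, h⟩), Nat.zero_mul, Nat.add_zero]
      have h2 := (hbk v).1 hv
      have h3 := arith_zero (e0 := bk H f cls v 0) (e2 := bk H f cls v 2) hs c2 hP12 c3
        (by omega) h2
      omega
    · rw [hv] at hearly hbkle ⊢
      rw [hbk0 0 (fun w hw h => hL w v hw ⟨h, hv⟩), Nat.zero_mul, Nat.zero_add]
      have h2 := (hbk v).2.1 hv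
      have h3 := arith_one (e1 := bk H f cls v 1) (e2 := bk H f cls v 2) hs c1 c3 h2.2 h2.1
      omega
    · rw [hv] at hearly hbkle ⊢
      rw [hbk0 2 (fun w hw h => hJ w v hw ⟨h, hv⟩), Nat.zero_mul, Nat.add_zero]
      have h2 := (hbk v).2.2 hv
      have h3 := arith_two (e0 := bk H f cls v 0) (e1 := bk H f cls v 1) hs hP12 c3 h2.2 h2.1
      omega

/-- the structure with the smaller clique class first -/
lemma structured
    (h : ∃ τ : V → Fin 3, Function.Surjective τ ∧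
      ∃ i j k : Fin 3, (∀ l, l = i ∨ l = j ∨ l = k) ∧ i ≠ j ∧ i ≠ k ∧ j ≠ k ∧
      ∀ p q, G.Adj p q → ¬ (τ p = k ∧ τ q = k) ∧ ¬ (τ p = i ∧ τ q = j)) :
    ∃ cl : V → Fin 3, Function.Surjective cl ∧
      (∀ p q, G.Adj p q → ¬ (cl p = 2 ∧ cl q = 2)) ∧
      (∀ p q, G.Adj p q → ¬ (cl p = 0 ∧ cl q = 1)) ∧
      (univ.filter fun x => cl x = 0).card ≤ (univ.filter fun x => cl x = 1).card := by
  classical
  obtain ⟨τ, hsurj, i, j, k, hl, hij, hik, hjk, h⟩ := h
  wlog hle : (univ.filter fun x => τ x = i).card ≤ (univ.filter fun x => τ x = j).card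
    generalizing i j
  · exact this j i (fun l => by
      rcases hl l with h1 | h1 | h1
      · exact Or.inr (Or.inl h1)
      · exact Or.inl h1
      · exact Or.inr (Or.inr h1)) hij.symm hjk hik
      (fun p q hadj => ⟨(h p q hadj).1, fun h1 => (h q p hadj.symm).2 ⟨h1.2, h1.1⟩⟩)
      (le_of_lt (not_le.1 hle))
  let cl : V → Fin 3 := fun x => if τ x = i then 0 else if τ x = j then 1 else 2
  have h0 : ∀ x, cl x = 0 ↔ τ x = i := by
    intro x
    change (if τ x = i then (0 : Fin 3) else if τ x = j then 1 else 2) = 0 ↔ _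
    split_ifs with h1 h2
    · simp [h1]
    · simp [h1]
    · simp [h1]
  have h1 : ∀ x, cl x = 1 ↔ τ x = j := by
    intro x
    change (if τ x = i then (0 : Fin 3) else if τ x = j then 1 else 2) = 1 ↔ _
    split_ifs with h1 h2
    · simp [h1, hij]
    · simp [h2]
    · simp [h2]
  have h2 : ∀ x, cl x = 2 ↔ τ x = k := by
    intro x
    change (if τ x = i then (0 : Fin 3) else if τ x = j then 1 else 2) = 2 ↔ _
    split_ifs with h1 h2
    · simp [h1, hik]
    · simp [h2, hjk]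
    · rcases hl (τ x) with h3 | h3 | h3
      · exact absurd h3 h1
      · exact absurd h3 h2
      · simp [h3]
  refine ⟨cl, ?_, ?_, ?_, ?_⟩
  · intro c
    have hc3 : ∀ c : Fin 3, c = 0 ∨ c = 1 ∨ c = 2 := by decide
    rcases hc3 c with rfl | rfl | rfl
    · obtain ⟨x, hx⟩ := hsurj i
      exact ⟨x, (h0 x).2 hx⟩
    · obtain ⟨x, hx⟩ := hsurj j
      exact ⟨x, (h1 x).2 hx⟩
    · obtain ⟨x, hx⟩ := hsurj k
      exact ⟨x, (h2 x).2 hx⟩
  · intro p q hadj
    rw [h2, h2]
    exact (h p q hadj).1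
  · intro p q hadj
    rw [h0, h1]
    exact (h p q hadj).2
  · simp only [h0, h1]
    exact hle

/-- graphs without an admissible subgraph and with large minimum degree have a cyclic group -/
theorem cyclic_of_admissible {H : SimpleGraph W} {s : ℕ} (hs : 3 ≤ s) (hH : Admissible H s)
    (hfree : H.Free G) (hδ : 2 * s * Fintype.card V < (3 * s + 1) * G.minDegree) :
    PiOneCyclic G := by
  classical
  intro o
  have h5 : 3 * Fintype.card V < 5 * G.minDegree := by
    by_contra hcon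
    push Not at hcon
    obtain ⟨t, rfl⟩ : ∃ t, s = 3 + t := ⟨s - 3, by omega⟩
    nlinarith
  rcases cyclic_or_structure (fun v => G.minDegree_le_degree v) h5 o with h | h
  · exact h
  · exfalso
    obtain ⟨cl, hcl, hI, hK, h01⟩ := structured h
    exact hfree (embed_of_admissible (by omega) hH (fun v => G.minDegree_le_degree v) cl hcl hI hK
      h01 hδ)

theorem deltaCyc_le_of_admissible {H : SimpleGraph W} {s : ℕ} (hs : 3 ≤ s)
    (hH : Admissible H s) : deltaCyc H ≤ 2 * s / (3 * s + 1) := by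
  refine deltaCyc_le _ ⟨by positivity, ?_⟩
  intro V _ G _ hfree hδ
  refine cyclic_of_admissible hs hH hfree ?_
  have h4 : (0 : ℝ) < 3 * s + 1 := by positivity
  rw [div_mul_eq_mul_div, div_lt_iff₀ h4] at hδ
  have h5 : (2 * s * Fintype.card V : ℝ) < (3 * s + 1) * G.minDegree := by linarith
  exact_mod_cast h5

end Adm

end Pool.Agent.H54.PD
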