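import Pool.Agent.H54.PD.Dense

/-!
# Almost all graphs have no stable cutset: counting
-/

set_option autoImplicit false

namespace Pool.Agent.H54.PD

open SimpleGraph Finset

section count

variable {V : Type*} [Fintype V] [DecidableEq V]

open Classical in
/-- the graphs which avoid a set of pairs -/
noncomputable def avoid (S : Finset (Sym2 V)) : Finset (SimpleGraph V) :=
  univ.filter fun H => ∀ e ∈ S, e ∉ H.edgeSet

lemma card_avoid (S : Finset (Sym2 V)) (hS : ∀ e ∈ S, ¬ e.IsDiag) :
    (avoid S).card * 2 ^ S.card ≤ Fintype.card (SimpleGraph V) := by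
  classical
  rw [← Finset.card_powerset, ← Finset.card_product, ← Finset.card_univ]
  refine Finset.card_le_card_of_injOn (fun p => p.1 ⊔ fromEdgeSet (p.2 : Set (Sym2 V)))
    (fun _ _ => by simp) ?_
  rintro ⟨H, T⟩ hH ⟨H', T'⟩ hH' he
  rw [Finset.mem_coe, Finset.mem_product, avoid, mem_filter, mem_powerset] at hH hH'
  obtain ⟨⟨-, hH⟩, hT⟩ := hH
  obtain ⟨⟨-, hH'⟩, hT'⟩ := hH'
  simp only at hH hT hH' hT' he
  have hedge : ∀ e, e ∈ H.edgeSet ∨ e ∈ T ↔ e ∈ H'.edgeSet ∨ e ∈ T' := by
    intro e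
    have h1 : e ∈ (H ⊔ fromEdgeSet (T : Set (Sym2 V))).edgeSet ↔
        e ∈ (H' ⊔ fromEdgeSet (T' : Set (Sym2 V))).edgeSet := by rw [he]
    rw [edgeSet_sup, edgeSet_sup, edgeSet_fromEdgeSet, edgeSet_fromEdgeSet, Set.mem_union,
      Set.mem_union, Set.mem_sdiff, Set.mem_sdiff, Finset.mem_coe, Finset.mem_coe] at h1
    have h2 : ∀ T : Finset (Sym2 V), T ⊆ S → (e ∈ T ∧ e ∉ Sym2.diagSet ↔ e ∈ T) := by
      intro T hT
      refine ⟨fun h => h.1, fun h => ⟨h, ?_⟩⟩
      exact hS e (hT h)
    rwa [h2 T hT, h2 T' hT'] at h1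
  have hTT : T = T' := by
    ext e
    refine ⟨fun h => ?_, fun h => ?_⟩
    · rcases (hedge e).1 (Or.inr h) with h1 | h1
      · exact absurd h1 (hH' e (hT h))
      · exact h1
    · rcases (hedge e).2 (Or.inr h) with h1 | h1
      · exact absurd h1 (hH e (hT' h))
      · exact h1
  have hHH : H = H' := by
    rw [← edgeSet_inj]
    ext e
    refine ⟨fun h => ?_, fun h => ?_⟩
    · rcases (hedge e).1 (Or.inl h) with h1 | h1
      · exact h1
      · exact absurd h (hH e (hT' h1))
    · rcases (hedge e).2 (Or.inl h) with h1 | h1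
      · exact h1
      · exact absurd h (hH' e (hT h1))
  rw [hTT, hHH]

lemma avoid_real (S : Finset (Sym2 V)) (hS : ∀ e ∈ S, ¬ e.IsDiag) {k : ℕ} (hk : k ≤ S.card) :
    ((avoid S).card : ℝ) ≤ Fintype.card (SimpleGraph V) * (1 / 2) ^ k := by
  have h1 := card_avoid S hS
  have h2 : ((avoid S).card : ℝ) * 2 ^ S.card ≤ Fintype.card (SimpleGraph V) := by
    exact_mod_cast h1
  have h3 : ((avoid S).card : ℝ) * 2 ^ k ≤ Fintype.card (SimpleGraph V) :=
    le_trans (mul_le_mul_of_nonneg_left (pow_le_pow_right₀ (by norm_num) hk) (by positivity)) h2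
  rw [one_div, inv_pow, ← div_eq_mul_inv, le_div_iff₀ (by positivity)]
  exact h3

/-- the graphs with a given stable set -/
lemma stable_real (J : Finset V) (P : Finset (SimpleGraph V))
    (hP : ∀ H ∈ P, ∀ v ∈ J, ∀ w ∈ J, ¬ H.Adj v w) :
    (P.card : ℝ) ≤ Fintype.card (SimpleGraph V) * (1 / 2) ^ (J.card.choose 2) := by
  classical
  have h1 : P ⊆ avoid (J.offDiag.image Sym2.mk.uncurry) := by
    intro H hH
    rw [avoid, mem_filter]
    refine ⟨mem_univ _, ?_⟩
    intro e he
    rw [mem_image] at he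
    obtain ⟨⟨v, w⟩, hvw, rfl⟩ := he
    rw [mem_offDiag] at hvw
    exact fun h => hP H hH v hvw.1 w hvw.2.1 h
  have h2 : ∀ e ∈ J.offDiag.image Sym2.mk.uncurry, ¬ e.IsDiag := by
    intro e he
    rw [mem_image] at he
    obtain ⟨⟨v, w⟩, hvw, rfl⟩ := he
    rw [mem_offDiag] at hvw
    exact fun h => hvw.2.2 h
  have h3 : (P.card : ℝ) ≤ (avoid (J.offDiag.image Sym2.mk.uncurry)).card := by
    exact_mod_cast Finset.card_le_card h1
  exact h3.trans (avoid_real _ h2 (Sym2.card_image_offDiag J).ge)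

/-- the graphs with no edges between two given sets -/
lemma cross_real (L L' : Finset V) (hL : Disjoint L L') (P : Finset (SimpleGraph V)) {h : ℕ}
    (hh : h ≤ L'.card) (hP : ∀ H ∈ P, ∀ v ∈ L, ∀ w ∈ L', ¬ H.Adj v w) :
    (P.card : ℝ) ≤ Fintype.card (SimpleGraph V) * ((1 / 2) ^ h) ^ L.card := by
  classical
  have h1 : P ⊆ avoid ((L ×ˢ L').image Sym2.mk.uncurry) := by
    intro H hH
    rw [avoid, mem_filter]
    refine ⟨mem_univ _, ?_⟩
    intro e he
    rw [mem_image] at he
    obtain ⟨⟨v, w⟩, hvw, rfl⟩ := he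
    rw [mem_product] at hvw
    exact fun h => hP H hH v hvw.1 w hvw.2 h
  have h2 : ∀ e ∈ (L ×ˢ L').image Sym2.mk.uncurry, ¬ e.IsDiag := by
    intro e he
    rw [mem_image] at he
    obtain ⟨⟨v, w⟩, hvw, rfl⟩ := he
    rw [mem_product] at hvw
    intro h
    have h' : v = w := h
    exact Finset.disjoint_left.1 hL hvw.1 (h' ▸ hvw.2)
  have h3 : (P.card : ℝ) ≤ (avoid ((L ×ˢ L').image Sym2.mk.uncurry)).card := by
    exact_mod_cast Finset.card_le_card h1
  have h4 : ((L ×ˢ L').image Sym2.mk.uncurry).card = L.card * L'.card := by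
    rw [Finset.card_image_of_injOn, card_product]
    rintro ⟨a, b⟩ hab ⟨c, d⟩ hcd he
    rw [mem_coe, mem_product] at hab hcd
    have he' : s(a, b) = s(c, d) := he
    rw [Sym2.eq_iff] at he'
    rcases he' with ⟨h5, h6⟩ | ⟨h5, h6⟩
    · rw [h5, h6]
    · exfalso
      exact Finset.disjoint_left.1 hL hab.1 (h5 ▸ hcd.2)
  rw [← pow_mul]
  refine h3.trans (avoid_real _ h2 ?_)
  rw [h4, Nat.mul_comm]
  exact Nat.mul_le_mul_left _ hh

/-- a graph with small independence number and a stable cutset splits -/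
lemma split_of_not (H : SimpleGraph V) (hH : ¬ NoStableCutset H) :
    ∃ J L : Finset V, J.card ≤ H.indepNum ∧ Disjoint J L ∧ L.Nonempty ∧
      L.card ≤ ((J ∪ L)ᶜ).card ∧ ∀ v ∈ L, ∀ w ∈ (J ∪ L)ᶜ, ¬ H.Adj v w := by
  classical
  unfold NoStableCutset at hH
  push Not at hH
  obtain ⟨J, hJ, hp⟩ := hH
  unfold Preconnected at hp
  push Not at hp
  obtain ⟨u, v, huv⟩ := hp
  set J' := univ.filter (fun x => x ∈ J) with hJ'
  set A := univ.filter (fun x => ∃ h : x ∉ J, (H.induce Jᶜ).Reachable u ⟨x, h⟩) with hA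
  set B := univ.filter (fun x => ∃ h : x ∉ J, ¬ (H.induce Jᶜ).Reachable u ⟨x, h⟩) with hB
  have hJc : J'.card ≤ H.indepNum := by
    apply IsIndepSet.card_le_indepNum
    have : (J' : Set V) = J := by
      ext x
      simp [hJ']
    rw [this]
    exact hJ
  have hcov : ∀ x, x ∈ J' ∨ x ∈ A ∨ x ∈ B := by
    intro x
    simp only [hJ', hA, hB, mem_filter, mem_univ, true_and]
    by_cases h : x ∈ J
    · exact Or.inl h
    · by_cases h1 : (H.induce Jᶜ).Reachable u ⟨x, h⟩
      · exact Or.inr (Or.inl ⟨h, h1⟩)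
      · exact Or.inr (Or.inr ⟨h, h1⟩)
  have hJA : Disjoint J' A := by
    rw [Finset.disjoint_left]
    intro x hx hx'
    simp only [hJ', hA, mem_filter, mem_univ, true_and] at hx hx'
    exact hx'.1 hx
  have hJB : Disjoint J' B := by
    rw [Finset.disjoint_left]
    intro x hx hx'
    simp only [hJ', hB, mem_filter, mem_univ, true_and] at hx hx'
    exact hx'.1 hx
  have hAB : Disjoint A B := by
    rw [Finset.disjoint_left]
    intro x hx hx'
    simp only [hA, hB, mem_filter, mem_univ, true_and] at hx hx'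
    exact hx'.2 hx.2
  have hno : ∀ x ∈ A, ∀ y ∈ B, ¬ H.Adj x y := by
    intro x hx y hy hadj
    simp only [hA, hB, mem_filter, mem_univ, true_and] at hx hy
    obtain ⟨hx1, hx2⟩ := hx
    obtain ⟨hy1, hy2⟩ := hy
    apply hy2
    refine hx2.trans ?_
    have : (H.induce Jᶜ).Adj ⟨x, hx1⟩ ⟨y, hy1⟩ := hadj
    exact this.reachable
  have hAne : A.Nonempty := by
    refine ⟨u.1, ?_⟩
    simp only [hA, mem_filter, mem_univ, true_and]
    exact ⟨u.2, Reachable.refl _⟩
  have hBne : B.Nonempty := by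
    refine ⟨v.1, ?_⟩
    simp only [hB, mem_filter, mem_univ, true_and]
    exact ⟨v.2, huv⟩
  have hcA : (J' ∪ A)ᶜ = B := by
    ext x
    rw [mem_compl, mem_union, not_or]
    refine ⟨fun h => ?_, fun h => ⟨fun h1 => ?_, fun h1 => ?_⟩⟩
    · rcases hcov x with h1 | h1 | h1
      · exact absurd h1 h.1
      · exact absurd h1 h.2
      · exact h1
    · exact Finset.disjoint_left.1 hJB h1 h
    · exact Finset.disjoint_left.1 hAB h1 h
  have hcB : (J' ∪ B)ᶜ = A := by
    ext x
    rw [mem_compl, mem_union, not_or]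
    refine ⟨fun h => ?_, fun h => ⟨fun h1 => ?_, fun h1 => ?_⟩⟩
    · rcases hcov x with h1 | h1 | h1
      · exact absurd h1 h.1
      · exact h1
      · exact absurd h1 h.2
    · exact Finset.disjoint_left.1 hJA h1 h
    · exact Finset.disjoint_left.1 hAB h h1
  rcases le_total A.card B.card with hle | hle
  · exact ⟨J', A, hJc, hJA, hAne, by rw [hcA]; exact hle, by rw [hcA]; exact hno⟩
  · exact ⟨J', B, hJc, hJB, hBne, by rw [hcB]; exact hle, by
      rw [hcB]
      exact fun x hx y hy hadj => hno y hy x hx hadj.symm⟩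

lemma card_small (n k : ℕ) (hn : 1 ≤ n) :
    ((univ : Finset (Finset (Fin n))).filter fun J => J.card < k).card ≤ (n + 1) ^ k := by
  classical
  have h1 : (univ : Finset (Finset (Fin n))).filter (fun J => J.card < k) =
      (range k).biUnion fun i => powersetCard i univ := by
    ext J
    simp only [mem_filter, mem_univ, true_and, mem_biUnion, mem_range, mem_powersetCard,
      subset_univ]
    exact ⟨fun h => ⟨_, h, rfl⟩, fun ⟨i, hi, h⟩ => h ▸ hi⟩
  rw [h1]
  refine Finset.card_biUnion_le.trans ?_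
  have h2 : ∀ k, ∑ i ∈ range k, n ^ i ≤ (n + 1) ^ k := by
    intro k
    induction k with
    | zero => simp
    | succ k ih =>
      rw [sum_range_succ, pow_succ]
      have h3 : n ^ k ≤ (n + 1) ^ k := Nat.pow_le_pow_left (by omega) k
      have h4 : (n + 1) ^ k * 1 ≤ (n + 1) ^ k * n := Nat.mul_le_mul_left _ hn
      rw [Nat.mul_add]
      omega
  refine (Finset.sum_le_sum fun i _ => ?_).trans (h2 k)
  rw [card_powersetCard, card_univ, Fintype.card_fin]
  exact Nat.choose_le_pow n i

open Classical in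
/-- counting the bad graphs -/
theorem bad_count (n k h : ℕ) (hn : 1 ≤ n) (hk : 2 * h + k ≤ n + 1) :
    (((univ : Finset (SimpleGraph (Fin n))).filter
      fun H => k ≤ H.indepNum ∨ ¬ NoStableCutset H).card : ℝ) ≤
      Fintype.card (SimpleGraph (Fin n)) *
        ((n.choose k) * (1 / 2) ^ (k.choose 2) + (n + 1) ^ k * ((1 + (1 / 2) ^ h) ^ n - 1)) := by
  set N : ℝ := (Fintype.card (SimpleGraph (Fin n)) : ℝ) with hN
  have hN0 : 0 ≤ N := by positivity
  let A : Finset (Fin n) → Finset (SimpleGraph (Fin n)) := fun J =>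
    univ.filter fun H => ∀ v ∈ J, ∀ w ∈ J, ¬ H.Adj v w
  let B : Finset (Fin n) → Finset (Fin n) → Finset (SimpleGraph (Fin n)) := fun J L =>
    univ.filter fun H => Disjoint J L ∧ L.card ≤ ((J ∪ L)ᶜ).card ∧
      ∀ v ∈ L, ∀ w ∈ (J ∪ L)ᶜ, ¬ H.Adj v w
  have hsub : (univ : Finset (SimpleGraph (Fin n))).filter
      (fun H => k ≤ H.indepNum ∨ ¬ NoStableCutset H) ⊆
      ((powersetCard k univ).biUnion A) ∪
      (((univ : Finset (Finset (Fin n))).filter fun J => J.card < k).biUnion fun J =>
        (((univ : Finset (Fin n)).powerset).erase ∅).biUnion fun L => B J L) := by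
    intro H hH
    rw [mem_filter] at hH
    rw [mem_union]
    by_cases hk' : k ≤ H.indepNum
    · left
      obtain ⟨S, hS⟩ := H.exists_isNIndepSet_indepNum
      obtain ⟨J, hJS, hJc⟩ := Finset.exists_subset_card_eq (show k ≤ S.card by
        rw [hS.card_eq]
        exact hk')
      rw [mem_biUnion]
      refine ⟨J, by rw [mem_powersetCard]; exact ⟨subset_univ _, hJc⟩, ?_⟩
      simp only [A, mem_filter, mem_univ, true_and]
      intro v hv w hw hadj
      exact hS.isIndepSet (hJS hv) (hJS hw) hadj.ne hadj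
    · right
      obtain ⟨J, L, h1, h2, h3, h4, h5⟩ := split_of_not H (hH.2.resolve_left hk')
      rw [mem_biUnion]
      refine ⟨J, by rw [mem_filter]; exact ⟨mem_univ _, by omega⟩, ?_⟩
      rw [mem_biUnion]
      refine ⟨L, by rw [mem_erase, mem_powerset]; exact ⟨h3.ne_empty, subset_univ _⟩, ?_⟩
      simp only [B, mem_filter, mem_univ, true_and]
      exact ⟨h2, h4, h5⟩
  have hA : ∀ J ∈ powersetCard k (univ : Finset (Fin n)), ((A J).card : ℝ) ≤
      N * (1 / 2) ^ (k.choose 2) := by
    intro J hJ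
    rw [mem_powersetCard] at hJ
    have := stable_real J (A J) (fun H hH => by
      simp only [A, mem_filter, mem_univ, true_and] at hH
      exact hH)
    rwa [hJ.2] at this
  have hB : ∀ J ∈ (univ : Finset (Finset (Fin n))).filter (fun J => J.card < k),
      ∀ L : Finset (Fin n), ((B J L).card : ℝ) ≤ N * ((1 / 2) ^ h) ^ L.card := by
    intro J hJ L
    rw [mem_filter] at hJ
    by_cases hcond : Disjoint J L ∧ L.card ≤ ((J ∪ L)ᶜ).card
    · have hc1 : (J ∪ L).card = J.card + L.card := Finset.card_union_of_disjoint hcond.1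
      have hc2 : (J ∪ L).card + ((J ∪ L)ᶜ).card = n := by
        rw [Finset.card_add_card_compl, Fintype.card_fin]
      refine cross_real L ((J ∪ L)ᶜ) ?_ (B J L) ?_ ?_
      · rw [Finset.disjoint_left]
        intro x hx hx'
        rw [mem_compl, mem_union, not_or] at hx'
        exact hx'.2 hx
      · omega
      · intro H hH
        simp only [B, mem_filter, mem_univ, true_and] at hH
        exact hH.2.2
    · have : B J L = ∅ := by
        simp only [B, Finset.filter_eq_empty_iff]
        intro H _ hH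
        exact hcond ⟨hH.1, hH.2.1⟩
      rw [this, card_empty, Nat.cast_zero]
      positivity
  have hsumL : ∑ L ∈ ((univ : Finset (Fin n)).powerset).erase ∅, N * (((1 / 2 : ℝ)) ^ h) ^ L.card =
      N * ((1 + (1 / 2) ^ h) ^ n - 1) := by
    have h1 := Finset.sum_pow_mul_eq_add_pow ((1 / 2 : ℝ) ^ h) 1 (univ : Finset (Fin n))
    rw [← Finset.add_sum_erase _ _ (Finset.empty_mem_powerset _), card_empty, card_univ,
      Fintype.card_fin] at h1
    simp only [one_pow, mul_one, pow_zero] at h1
    rw [← Finset.mul_sum]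
    congr 1
    rw [add_comm 1 ((1 / 2 : ℝ) ^ h), ← h1]
    ring
  calc (((univ : Finset (SimpleGraph (Fin n))).filter
      fun H => k ≤ H.indepNum ∨ ¬ NoStableCutset H).card : ℝ)
      ≤ ((((powersetCard k univ).biUnion A) ∪
        (((univ : Finset (Finset (Fin n))).filter fun J => J.card < k).biUnion fun J =>
        (((univ : Finset (Fin n)).powerset).erase ∅).biUnion fun L => B J L)).card : ℝ) := by
        exact_mod_cast Finset.card_le_card hsub
    _ ≤ (((powersetCard k univ).biUnion A).card : ℝ) +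
        ((((univ : Finset (Finset (Fin n))).filter fun J => J.card < k).biUnion fun J =>
        (((univ : Finset (Fin n)).powerset).erase ∅).biUnion fun L => B J L).card : ℝ) := by
        exact_mod_cast Finset.card_union_le _ _
    _ ≤ ∑ J ∈ powersetCard k univ, ((A J).card : ℝ) +
        ∑ J ∈ (univ : Finset (Finset (Fin n))).filter (fun J => J.card < k),
          ∑ L ∈ ((univ : Finset (Fin n)).powerset).erase ∅, ((B J L).card : ℝ) := by
        refine add_le_add ?_ ?_
        · exact_mod_cast Finset.card_biUnion_le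
        · have h1 : ((((univ : Finset (Finset (Fin n))).filter fun J => J.card < k).biUnion fun J =>
            (((univ : Finset (Fin n)).powerset).erase ∅).biUnion fun L => B J L).card) ≤
            ∑ J ∈ (univ : Finset (Finset (Fin n))).filter (fun J => J.card < k),
            ∑ L ∈ ((univ : Finset (Fin n)).powerset).erase ∅, (B J L).card :=
            Finset.card_biUnion_le.trans (Finset.sum_le_sum fun J _ => Finset.card_biUnion_le)
          exact_mod_cast h1
    _ ≤ ∑ _J ∈ powersetCard k (univ : Finset (Fin n)), N * (1 / 2) ^ (k.choose 2) +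
        ∑ _J ∈ (univ : Finset (Finset (Fin n))).filter (fun J => J.card < k),
          N * ((1 + (1 / 2) ^ h) ^ n - 1) := by
        refine add_le_add (Finset.sum_le_sum hA) (Finset.sum_le_sum fun J hJ => ?_)
        rw [← hsumL]
        exact Finset.sum_le_sum fun L _ => hB J hJ L
    _ ≤ N * ((n.choose k) * (1 / 2) ^ (k.choose 2) +
        (n + 1) ^ k * ((1 + (1 / 2) ^ h) ^ n - 1)) := by
        rw [sum_const, sum_const, card_powersetCard, card_univ, Fintype.card_fin, nsmul_eq_mul,
          nsmul_eq_mul, mul_add]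
        refine add_le_add (le_of_eq (by ring)) ?_
        have h1 : ((((univ : Finset (Finset (Fin n))).filter fun J => J.card < k).card : ℕ) : ℝ) ≤
            ((n + 1) ^ k : ℝ) := by exact_mod_cast card_small n k hn
        have h2 : (0 : ℝ) ≤ (1 + (1 / 2) ^ h) ^ n - 1 := by
          have : (1 : ℝ) ≤ (1 + (1 / 2) ^ h) ^ n := one_le_pow₀ (by
            have : (0 : ℝ) ≤ (1 / 2) ^ h := by positivity
            linarith)
          linarith
        calc _ ≤ ((n + 1) ^ k : ℝ) * (N * ((1 + (1 / 2) ^ h) ^ n - 1)) :=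
              mul_le_mul_of_nonneg_right h1 (mul_nonneg hN0 h2)
          _ = _ := by ring

end count

end Pool.Agent.H54.PD
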