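import Pool.Agent.H54.PD.Flat

/-!
# The minimum-degree threshold for a cyclic discrete fundamental group: definitions

For a finite simple graph `G` two walks are homotopic if one can be turned into the other by
substitutions, insertions and deletions; `PiOne G v` is the group of homotopy classes of closed
walks at `v`.  `deltaCyc H` is the infimum of the `α ≥ 0` such that every `H`-free finite graph
`G` with `δ(G) > α |G|` has all its groups `PiOne G v` cyclic.
-/

namespace Pool.Agent.H54.PD

open SimpleGraph

section Defs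

variable {V : Type*} (G : SimpleGraph V)

/-- One homotopy move between walks with the same endpoints.
`sub` replaces an inner vertex `b` by another common neighbour `b'` of its two neighbours `a`
and `c` in the walk, `ins` replaces a vertex `a` by `a w a`, `del` is the reverse of `ins`. -/
inductive Move : ∀ {u v : V}, G.Walk u v → G.Walk u v → Prop
  | sub {u a b b' c v : V} (p : G.Walk u a) (h₁ : G.Adj a b) (h₂ : G.Adj b c)
      (h₁' : G.Adj a b') (h₂' : G.Adj b' c) (q : G.Walk c v) :
      Move (p.append (.cons h₁ (.cons h₂ q))) (p.append (.cons h₁' (.cons h₂' q)))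
  | ins {u a w v : V} (p : G.Walk u a) (h : G.Adj a w) (q : G.Walk a v) :
      Move (p.append q) (p.append (.cons h (.cons h.symm q)))
  | del {u a w v : V} (p : G.Walk u a) (h : G.Adj a w) (q : G.Walk a v) :
      Move (p.append (.cons h (.cons h.symm q))) (p.append q)

/-- Two walks are homotopic if a finite sequence of moves turns one into the other. -/
def Homotopic {u v : V} (p q : G.Walk u v) : Prop := Relation.ReflTransGen (Move G) p q

variable {G}

lemma Move.symm {u v : V} {p q : G.Walk u v} (h : Move G p q) : Move G q p := by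
  cases h with
  | sub p h₁ h₂ h₁' h₂' q => exact Move.sub p h₁' h₂' h₁ h₂ q
  | ins p h q => exact Move.del p h q
  | del p h q => exact Move.ins p h q

lemma Homotopic.refl {u v : V} (p : G.Walk u v) : Homotopic G p p := Relation.ReflTransGen.refl

lemma Homotopic.symm {u v : V} {p q : G.Walk u v} (h : Homotopic G p q) : Homotopic G q p := by
  induction h with
  | refl => exact Relation.ReflTransGen.refl
  | tail _ h ih => exact Relation.ReflTransGen.head h.symm ih

lemma Homotopic.trans {u v : V} {p q r : G.Walk u v} (h : Homotopic G p q)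
    (h' : Homotopic G q r) : Homotopic G p r := Relation.ReflTransGen.trans h h'

lemma Move.append_right {u v w : V} {p p' : G.Walk u v} (h : Move G p p') (q : G.Walk v w) :
    Move G (p.append q) (p'.append q) := by
  cases h with
  | sub p h₁ h₂ h₁' h₂' r =>
    simp only [← Walk.append_assoc, Walk.cons_append]
    exact Move.sub p h₁ h₂ h₁' h₂' _
  | ins p h r =>
    simp only [← Walk.append_assoc, Walk.cons_append]
    exact Move.ins p h _
  | del p h r =>
    simp only [← Walk.append_assoc, Walk.cons_append]
    exact Move.del p h _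

lemma Move.append_left {u v w : V} (q : G.Walk u v) {p p' : G.Walk v w} (h : Move G p p') :
    Move G (q.append p) (q.append p') := by
  cases h with
  | sub p h₁ h₂ h₁' h₂' r =>
    simp only [Walk.append_assoc]
    exact Move.sub _ h₁ h₂ h₁' h₂' _
  | ins p h r =>
    simp only [Walk.append_assoc]
    exact Move.ins _ h _
  | del p h r =>
    simp only [Walk.append_assoc]
    exact Move.del _ h _

lemma Homotopic.append {u v w : V} {p p' : G.Walk u v} {q q' : G.Walk v w}
    (h : Homotopic G p p') (h' : Homotopic G q q') :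
    Homotopic G (p.append q) (p'.append q') := by
  have h1 : Homotopic G (p.append q) (p'.append q) := by
    induction h with
    | refl => exact Homotopic.refl _
    | tail _ h ih => exact ih.tail (h.append_right q)
  have h2 : Homotopic G (p'.append q) (p'.append q') := by
    induction h' with
    | refl => exact Homotopic.refl _
    | tail _ h ih => exact ih.tail (h.append_left p')
  exact h1.trans h2

lemma Move.reverse {u v : V} {p p' : G.Walk u v} (h : Move G p p') :
    Move G p.reverse p'.reverse := by
  cases h with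
  | sub p h₁ h₂ h₁' h₂' r =>
    simp only [Walk.reverse_append, Walk.reverse_cons, ← Walk.append_assoc, Walk.cons_append,
      Walk.nil_append]
    exact Move.sub _ h₂.symm h₁.symm h₂'.symm h₁'.symm _
  | ins p h r =>
    simp only [Walk.reverse_append, Walk.reverse_cons, ← Walk.append_assoc, Walk.cons_append,
      Walk.nil_append]
    exact Move.ins _ h _
  | del p h r =>
    simp only [Walk.reverse_append, Walk.reverse_cons, ← Walk.append_assoc, Walk.cons_append,
      Walk.nil_append]
    exact Move.del _ h _

lemma Homotopic.reverse {u v : V} {p p' : G.Walk u v} (h : Homotopic G p p') :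
    Homotopic G p.reverse p'.reverse := by
  induction h with
  | refl => exact Homotopic.refl _
  | tail _ h ih => exact ih.tail h.reverse

lemma homotopic_append_reverse {u v : V} (p : G.Walk u v) :
    Homotopic G (p.append p.reverse) Walk.nil := by
  induction p with
  | nil => exact Homotopic.refl _
  | cons h p ih =>
    rw [Walk.reverse_cons, Walk.cons_append, Walk.append_assoc]
    have h1 : Homotopic G (Walk.cons h ((p.append p.reverse).append (Walk.cons h.symm Walk.nil)))
        (Walk.cons h (Walk.nil.append (Walk.cons h.symm Walk.nil))) := by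
      have := (Homotopic.refl (Walk.cons h Walk.nil)).append
        (ih.append (Homotopic.refl (Walk.cons h.symm Walk.nil)))
      simpa only [Walk.cons_append, Walk.nil_append] using this
    refine h1.trans ?_
    rw [Walk.nil_append]
    exact Relation.ReflTransGen.single (Move.del Walk.nil h Walk.nil)

variable (G)

/-- Homotopy of walks from `u` to `v` as an equivalence relation. -/
def homotopySetoid (u v : V) : Setoid (G.Walk u v) where
  r := Homotopic G
  iseqv := ⟨Homotopic.refl, Homotopic.symm, Homotopic.trans⟩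

/-- Homotopy classes of walks from `u` to `v`. -/
def WalkClass (u v : V) : Type _ := Quotient (homotopySetoid G u v)

/-- The discrete fundamental group: homotopy classes of closed walks at `v`. -/
abbrev PiOne (v : V) : Type _ := WalkClass G v v

variable {G}

/-- The class of a walk. -/
def WalkClass.mk {u v : V} (p : G.Walk u v) : WalkClass G u v :=
  Quotient.mk (homotopySetoid G u v) p

/-- Concatenation of classes. -/
def WalkClass.comp {u v w : V} (x : WalkClass G u v) (y : WalkClass G v w) : WalkClass G u w :=
  Quotient.map₂ (fun p q => p.append q) (fun _ _ h _ _ h' => Homotopic.append h h') x y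

/-- Reversal of classes. -/
def WalkClass.inv {u v : V} (x : WalkClass G u v) : WalkClass G v u :=
  Quotient.map (fun p => p.reverse) (fun _ _ h => Homotopic.reverse h) x

lemma WalkClass.sound {u v : V} {p q : G.Walk u v} (h : Homotopic G p q) :
    WalkClass.mk p = WalkClass.mk q := Quotient.sound h

lemma WalkClass.comp_assoc {u v w x : V} (a : WalkClass G u v) (b : WalkClass G v w)
    (c : WalkClass G w x) : (a.comp b).comp c = a.comp (b.comp c) := by
  induction a using Quotient.inductionOn with | _ a =>
  induction b using Quotient.inductionOn with | _ b =>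
  induction c using Quotient.inductionOn with | _ c =>
  exact congrArg WalkClass.mk (Walk.append_assoc a b c).symm

lemma WalkClass.nil_comp {u v : V} (a : WalkClass G u v) :
    (WalkClass.mk Walk.nil).comp a = a := by
  induction a using Quotient.inductionOn with | _ a =>
  exact congrArg WalkClass.mk (Walk.nil_append a)

lemma WalkClass.comp_nil {u v : V} (a : WalkClass G u v) :
    a.comp (WalkClass.mk Walk.nil) = a := by
  induction a using Quotient.inductionOn with | _ a =>
  exact congrArg WalkClass.mk (Walk.append_nil a)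

lemma WalkClass.comp_inv {u v : V} (a : WalkClass G u v) :
    a.comp a.inv = WalkClass.mk Walk.nil := by
  induction a using Quotient.inductionOn with | _ a =>
  exact WalkClass.sound (homotopic_append_reverse a)

lemma WalkClass.inv_comp {u v : V} (a : WalkClass G u v) :
    a.inv.comp a = WalkClass.mk Walk.nil := by
  induction a using Quotient.inductionOn with | _ a =>
  have := homotopic_append_reverse a.reverse
  rw [Walk.reverse_reverse] at this
  exact WalkClass.sound this

/-- The group structure on `PiOne G v`: the product is concatenation, the inverse is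
reversal. -/
instance (v : V) : Group (PiOne G v) where
  mul := WalkClass.comp
  mul_assoc := WalkClass.comp_assoc
  one := WalkClass.mk Walk.nil
  one_mul := WalkClass.nil_comp
  mul_one := WalkClass.comp_nil
  inv := WalkClass.inv
  inv_mul_cancel := WalkClass.inv_comp

end Defs

/-- `π₁(G)` is cyclic: all the groups `PiOne G v` are cyclic. -/
def PiOneCyclic {V : Type*} (G : SimpleGraph V) : Prop := ∀ v, IsCyclic (PiOne G v)

/-- The threshold `δ_cyc(H)`: the infimum of the real `α ≥ 0` such that every finite `H`-free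
graph `G` with minimum degree greater than `α |G|` has cyclic `π₁(G)`. -/
noncomputable def deltaCyc {W : Type*} (H : SimpleGraph W) : ℝ :=
  sInf {α : ℝ | 0 ≤ α ∧ ∀ (V : Type) [Fintype V] (G : SimpleGraph V) [DecidableRel G.Adj],
    H.Free G → α * Fintype.card V < G.minDegree → PiOneCyclic G}

section Upper

variable {V : Type*} {G : SimpleGraph V}

lemma WalkClass.inv_comp_rev {u v w : V} (a : WalkClass G u v) (b : WalkClass G v w) :
    (a.comp b).inv = b.inv.comp a.inv := by
  induction a using Quotient.inductionOn with | _ a =>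
  induction b using Quotient.inductionOn with | _ b =>
  exact congrArg WalkClass.mk (Walk.reverse_append a b)

lemma WalkClass.inv_inv {u v : V} (a : WalkClass G u v) : a.inv.inv = a := by
  induction a using Quotient.inductionOn with | _ a =>
  exact congrArg WalkClass.mk (Walk.reverse_reverse a)

/-- the class of an edge -/
def edge {u v : V} (h : G.Adj u v) : WalkClass G u v := WalkClass.mk (Walk.cons h Walk.nil)

lemma edge_inv {u v : V} (h : G.Adj u v) : (edge h).inv = edge h.symm := by
  exact congrArg WalkClass.mk (by simp)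

lemma edge_sub {u w w' v : V} (h₁ : G.Adj u w) (h₂ : G.Adj w v) (h₁' : G.Adj u w')
    (h₂' : G.Adj w' v) : (edge h₁).comp (edge h₂) = (edge h₁').comp (edge h₂') :=
  WalkClass.sound (Relation.ReflTransGen.single (Move.sub Walk.nil h₁ h₂ h₁' h₂' Walk.nil))

lemma edge_del {u w : V} (h : G.Adj u w) (h' : G.Adj w u) :
    (edge h).comp (edge h') = WalkClass.mk Walk.nil :=
  WalkClass.sound (Relation.ReflTransGen.single (Move.del Walk.nil h Walk.nil))

lemma mk_cons {u w v : V} (h : G.Adj u w) (p : G.Walk w v) :
    (WalkClass.mk (Walk.cons h p) : WalkClass G u v) = (edge h).comp (WalkClass.mk p) := rfl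

theorem cyclic_or_structure [Fintype V] [DecidableEq V] [DecidableRel G.Adj] {δ : ℕ}
    (hδ : ∀ v, δ ≤ G.degree v) (h5 : 3 * Fintype.card V < 5 * δ) (o : V) :
    IsCyclic (PiOne G o) ∨
    ∃ τ : V → Fin 3, Function.Surjective τ ∧
      ∃ i j k : Fin 3, (∀ l, l = i ∨ l = j ∨ l = k) ∧ i ≠ j ∧ i ≠ k ∧ j ≠ k ∧
      ∀ p q, G.Adj p q → ¬ (τ p = k ∧ τ q = k) ∧ ¬ (τ p = i ∧ τ q = j) := by
  classical
  choose cn hcn1 hcn2 using Pool.Agent.H54.PD.common hδ h5
  obtain ⟨c, hc, hco⟩ : ∃ c : ∀ x, WalkClass G o x,
      (∀ w x (h₁ : G.Adj o w) (h₂ : G.Adj w x), (edge h₁).comp (edge h₂) = c x) ∧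
      c o = WalkClass.mk Walk.nil :=
    ⟨fun x => (edge (hcn1 o x)).comp (edge (hcn2 o x)), fun w x h₁ h₂ => edge_sub _ _ _ _,
      edge_del _ _⟩
  let g : V → V → PiOne G o := fun u v =>
    if h : G.Adj u v then ((c u).comp (edge h)).comp (c v).inv else 1
  have hg : ∀ u v (h : G.Adj u v), g u v = ((c u).comp (edge h)).comp (c v).inv := by
    intro u v h
    simp only [g, dif_pos h]
  have hmul : ∀ u w v (h₁ : G.Adj u w) (h₂ : G.Adj w v),
      g u w * g w v = ((c u).comp ((edge h₁).comp (edge h₂))).comp (c v).inv := by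
    intro u w v h₁ h₂
    rw [hg _ _ h₁, hg _ _ h₂]
    change ((((c u).comp (edge h₁)).comp (c w).inv).comp
      (((c w).comp (edge h₂)).comp (c v).inv)) = _
    simp only [WalkClass.comp_assoc]
    rw [← WalkClass.comp_assoc (c w).inv, WalkClass.inv_comp, WalkClass.nil_comp]
  have hone : ∀ x : PiOne G o, ((c o).comp x).comp (c o).inv = x := by
    intro x
    rw [hco, WalkClass.nil_comp]
    exact WalkClass.comp_nil x
  have hinv' : ∀ u v, G.Adj u v → g v u = (g u v)⁻¹ := by
    intro u v huv
    rw [hg _ _ huv, hg _ _ huv.symm]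
    change _ = (((c u).comp (edge huv)).comp (c v).inv).inv
    rw [WalkClass.inv_comp_rev, WalkClass.inv_comp_rev, WalkClass.inv_inv, edge_inv,
      WalkClass.comp_assoc]
  have hflat' : ∀ u w w' v, G.Adj u w → G.Adj w v → G.Adj u w' → G.Adj w' v →
      g u w * g w v = g u w' * g w' v := by
    intro u w w' v h₁ h₂ h₁' h₂'
    rw [hmul _ _ _ h₁ h₂, hmul _ _ _ h₁' h₂', edge_sub h₁ h₂ h₁' h₂']
  have ho' : ∀ w x, G.Adj o w → G.Adj w x → g o w * g w x = 1 := by
    intro w x h₁ h₂
    rw [hmul _ _ _ h₁ h₂, hc w x h₁ h₂, hco, WalkClass.nil_comp, WalkClass.comp_inv]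
    rfl
  rcases Pool.Agent.H54.PD.flat_dichotomy hδ h5 g o hinv' hflat' ho' with ⟨γ, hγ⟩ | h
  · left
    refine ⟨⟨γ, ?_⟩⟩
    have key : ∀ {u v : V} (p : G.Walk u v),
        (((c u).comp (WalkClass.mk p)).comp (c v).inv : PiOne G o) ∈ Subgroup.zpowers γ := by
      intro u v p
      induction p with
      | nil =>
        rw [WalkClass.comp_nil, WalkClass.comp_inv]
        exact Subgroup.one_mem _
      | @cons u w v h p ih =>
        have h1 : ((c u).comp (WalkClass.mk (Walk.cons h p))).comp (c v).inv =
            g u w * (((c w).comp (WalkClass.mk p)).comp (c v).inv : PiOne G o) := by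
          rw [hg _ _ h, mk_cons]
          change _ = (((c u).comp (edge h)).comp (c w).inv).comp
            (((c w).comp (WalkClass.mk p)).comp (c v).inv)
          simp only [WalkClass.comp_assoc]
          rw [← WalkClass.comp_assoc (c w).inv, WalkClass.inv_comp, WalkClass.nil_comp]
        rw [h1]
        refine Subgroup.mul_mem _ ?_ ih
        rcases hγ u w h with h2 | h2
        · rw [h2]
          exact Subgroup.mem_zpowers γ
        · rw [h2]
          exact Subgroup.inv_mem _ (Subgroup.mem_zpowers γ)
    intro x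
    rw [← hone x]
    induction x using Quotient.inductionOn with | _ p =>
    exact key p
  · right
    exact h

end Upper

section Lower

/-- The extremal graph: an independent set of `m + 1` vertices completely joined to two
disjoint cliques with `m` vertices each. -/
def ext (m : ℕ) : SimpleGraph (Fin (m + 1) ⊕ (Bool × Fin m)) where
  Adj x y := match x, y with
    | Sum.inl _, Sum.inl _ => False
    | Sum.inl _, Sum.inr _ => True
    | Sum.inr _, Sum.inl _ => True
    | Sum.inr a, Sum.inr b => a.1 = b.1 ∧ a.2 ≠ b.2
  symm := ⟨fun x y h => by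
    rcases x with x | x <;> rcases y with y | y
    · exact h
    · trivial
    · trivial
    · exact ⟨h.1.symm, h.2.symm⟩⟩
  loopless := ⟨fun x h => by
    rcases x with x | x
    · exact h
    · exact h.2 rfl⟩

lemma ext_ll {m : ℕ} {a b : Fin (m + 1)} (h : (ext m).Adj (Sum.inl a) (Sum.inl b)) : False := h

lemma ext_lr {m : ℕ} (a : Fin (m + 1)) (b : Bool × Fin m) : (ext m).Adj (Sum.inl a) (Sum.inr b) :=
  trivial

lemma ext_rl {m : ℕ} (a : Fin (m + 1)) (b : Bool × Fin m) : (ext m).Adj (Sum.inr b) (Sum.inl a) :=
  trivial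

lemma ext_rr {m : ℕ} {a b : Bool × Fin m} :
    (ext m).Adj (Sum.inr a) (Sum.inr b) ↔ a.1 = b.1 ∧ a.2 ≠ b.2 := Iff.rfl

lemma ext_colorable (m : ℕ) : (ext m).Colorable (m + 1) := by
  refine ⟨Coloring.mk (fun x => match x with
    | Sum.inl _ => Fin.last m
    | Sum.inr a => a.2.castSucc) ?_⟩
  intro x y h
  rcases x with x | x <;> rcases y with y | y
  · exact (ext_ll h).elim
  · exact (Fin.castSucc_lt_last _).ne'
  · exact (Fin.castSucc_lt_last _).ne
  · intro he
    exact (ext_rr.1 h).2 (Fin.castSucc_injective m he)

lemma ext_degree (m : ℕ) (hm : 1 ≤ m) [DecidableRel (ext m).Adj]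
    (v : Fin (m + 1) ⊕ (Bool × Fin m)) : 2 * m ≤ (ext m).degree v := by
  classical
  rw [← (ext m).card_neighborFinset_eq_degree]
  rcases v with a | ⟨i, a⟩
  · have h1 : (Finset.univ : Finset (Bool × Fin m)).map ⟨Sum.inr, Sum.inr_injective⟩ ⊆
        (ext m).neighborFinset (Sum.inl a) := by
      intro x hx
      rw [Finset.mem_map] at hx
      obtain ⟨y, -, rfl⟩ := hx
      rw [mem_neighborFinset]
      exact ext_lr a y
    have h2 := Finset.card_le_card h1
    rw [Finset.card_map, Finset.card_univ, Fintype.card_prod, Fintype.card_bool,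
      Fintype.card_fin] at h2
    exact h2
  · have h1 : ((Finset.univ : Finset (Fin (m + 1))).disjSum
        ((Finset.univ.erase a).map ⟨fun b => (i, b), fun _ _ h => (Prod.ext_iff.1 h).2⟩)) ⊆
        (ext m).neighborFinset (Sum.inr (i, a)) := by
      intro x hx
      rw [Finset.mem_disjSum] at hx
      rw [mem_neighborFinset]
      rcases hx with ⟨y, -, rfl⟩ | ⟨y, hy, rfl⟩
      · exact ext_rl y (i, a)
      · rw [Finset.mem_map] at hy
        obtain ⟨b, hb, rfl⟩ := hy
        exact ext_rr.2 ⟨rfl, (Finset.ne_of_mem_erase hb).symm⟩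
    have h2 := Finset.card_le_card h1
    rw [Finset.card_disjSum, Finset.card_map, Finset.card_erase_of_mem (Finset.mem_univ _),
      Finset.card_univ, Finset.card_univ, Fintype.card_fin, Fintype.card_fin] at h2
    omega

/-- the part of a vertex: `none` for the independent set, `some i` for the two cliques -/
def tag {m : ℕ} : Fin (m + 1) ⊕ (Bool × Fin m) → Option Bool
  | Sum.inl _ => none
  | Sum.inr a => some a.1

/-- possible parts of adjacent vertices -/
def tadj : Option Bool → Option Bool → Bool
  | none, none => false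
  | some i, some j => i == j
  | _, _ => true

/-- the weight of an edge: it detects edges inside the two cliques -/
def twt : Option Bool → Option Bool → ZMod 2 × ZMod 2
  | some true, some true => (1, 0)
  | some false, some false => (0, 1)
  | _, _ => (0, 0)

lemma twt_sub : ∀ a b b' c : Option Bool, tadj a b = true → tadj b c = true → tadj a b' = true →
    tadj b' c = true → twt a b + twt b c = twt a b' + twt b' c := by decide

lemma twt_del : ∀ a b : Option Bool, tadj a b = true → twt a b + twt b a = 0 := by decide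

lemma tadj_of_adj {m : ℕ} {a b : Fin (m + 1) ⊕ (Bool × Fin m)} (h : (ext m).Adj a b) :
    tadj (tag a) (tag b) = true := by
  rcases a with a | a <;> rcases b with b | b
  · exact (ext_ll h).elim
  · rfl
  · rfl
  · have := (ext_rr.1 h).1
    change (a.1 == b.1) = true
    rw [this]
    simp

/-- the weight of a walk -/
def walkWt {m : ℕ} : ∀ {u v : Fin (m + 1) ⊕ (Bool × Fin m)}, (ext m).Walk u v → ZMod 2 × ZMod 2
  | _, _, .nil => 0
  | _, _, .cons (u := u) (v := w) _ p => twt (tag u) (tag w) + walkWt p

lemma walkWt_append {m : ℕ} {u v w : Fin (m + 1) ⊕ (Bool × Fin m)} (p : (ext m).Walk u v)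
    (q : (ext m).Walk v w) : walkWt (p.append q) = walkWt p + walkWt q := by
  induction p with
  | nil =>
    rw [Walk.nil_append]
    change _ = 0 + _
    rw [zero_add]
  | cons h p ih =>
    rw [Walk.cons_append]
    change twt _ _ + walkWt (p.append q) = twt _ _ + walkWt p + walkWt q
    rw [ih, add_assoc]

lemma walkWt_move {m : ℕ} {u v : Fin (m + 1) ⊕ (Bool × Fin m)} {p q : (ext m).Walk u v}
    (h : Move (ext m) p q) : walkWt p = walkWt q := by
  cases h with
  | @sub a b b' c _ p h₁ h₂ h₁' h₂' q =>
    rw [walkWt_append, walkWt_append]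
    change _ + (twt (tag a) (tag b) + (twt (tag b) (tag c) + walkWt q)) =
      _ + (twt (tag a) (tag b') + (twt (tag b') (tag c) + walkWt q))
    rw [← add_assoc (twt (tag a) (tag b)), ← add_assoc (twt (tag a) (tag b')),
      twt_sub _ _ _ _ (tadj_of_adj h₁) (tadj_of_adj h₂) (tadj_of_adj h₁') (tadj_of_adj h₂')]
  | @ins a w _ p h q =>
    rw [walkWt_append, walkWt_append]
    change _ = _ + (twt (tag a) (tag w) + (twt (tag w) (tag a) + walkWt q))
    rw [← add_assoc (twt (tag a) (tag w)), twt_del _ _ (tadj_of_adj h), zero_add]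
  | @del a w _ p h q =>
    rw [walkWt_append, walkWt_append]
    change _ + (twt (tag a) (tag w) + (twt (tag w) (tag a) + walkWt q)) = _
    rw [← add_assoc (twt (tag a) (tag w)), twt_del _ _ (tadj_of_adj h), zero_add]

lemma walkWt_homotopic {m : ℕ} {u v : Fin (m + 1) ⊕ (Bool × Fin m)} {p q : (ext m).Walk u v}
    (h : Homotopic (ext m) p q) : walkWt p = walkWt q := by
  induction h with
  | refl => rfl
  | tail _ h ih => exact ih.trans (walkWt_move h)

/-- the weight as a homomorphism -/
def wtHom (m : ℕ) (v : Fin (m + 1) ⊕ (Bool × Fin m)) :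
    PiOne (ext m) v →* Multiplicative (ZMod 2 × ZMod 2) where
  toFun x := Multiplicative.ofAdd (Quotient.lift (fun p => walkWt p)
    (fun _ _ h => walkWt_homotopic h) x)
  map_one' := rfl
  map_mul' x y := by
    induction x using Quotient.inductionOn with | _ p =>
    induction y using Quotient.inductionOn with | _ q =>
    exact congrArg Multiplicative.ofAdd (walkWt_append p q)

lemma wtHom_mk (m : ℕ) {v : Fin (m + 1) ⊕ (Bool × Fin m)} (p : (ext m).Walk v v) :
    wtHom m v (WalkClass.mk p) = Multiplicative.ofAdd (walkWt p) := rfl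

/-- the closed walk through two vertices of the clique `i` -/
def loopAt {m : ℕ} (a : Fin (m + 1)) (i : Bool) (x y : Fin m) (h : x ≠ y) :
    (ext m).Walk (Sum.inl a) (Sum.inl a) :=
  .cons (ext_lr a (i, x)) (.cons (ext_rr.2 ⟨rfl, h⟩ : (ext m).Adj (Sum.inr (i, x)) (Sum.inr (i, y)))
    (.cons (ext_rl a (i, y)) .nil))

lemma ext_not_cyclic (m : ℕ) (hm : 2 ≤ m) : ¬ PiOneCyclic (ext m) := by
  intro hcyc
  obtain ⟨⟨x, hx⟩⟩ := hcyc (Sum.inl 0)
  have h01 : (⟨0, by omega⟩ : Fin m) ≠ ⟨1, by omega⟩ := by simp
  have key : ∀ i, ∃ k : ℤ, (wtHom m _ x) ^ k =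
      Multiplicative.ofAdd (walkWt (loopAt 0 i _ _ h01)) := by
    intro i
    obtain ⟨k, hk⟩ := hx (WalkClass.mk (loopAt 0 i _ _ h01))
    refine ⟨k, ?_⟩
    rw [← wtHom_mk, ← hk, map_zpow]
  obtain ⟨k, hk⟩ := key true
  obtain ⟨l, hl⟩ := key false
  have h1 : k • (Multiplicative.toAdd (wtHom m _ x)) = ((1, 0) : ZMod 2 × ZMod 2) :=
    congrArg Multiplicative.toAdd hk
  have h2 : l • (Multiplicative.toAdd (wtHom m _ x)) = ((0, 1) : ZMod 2 × ZMod 2) :=
    congrArg Multiplicative.toAdd hl
  generalize Multiplicative.toAdd (wtHom m _ x) = z at h1 h2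
  obtain ⟨a, b⟩ := z
  rw [Prod.smul_mk, Prod.mk.injEq, zsmul_eq_mul, zsmul_eq_mul] at h1 h2
  generalize (k : ZMod 2) = k' at h1
  generalize (l : ZMod 2) = l' at h2
  revert a b k' l'
  decide

end Lower

section Main

variable {V : Type*} [Fintype V] [DecidableEq V] {G : SimpleGraph V} [DecidableRel G.Adj] {δ : ℕ}

/-- the two sets used in the counting arguments -/
lemma structure_sets
    (h : ∃ τ : V → Fin 3, Function.Surjective τ ∧
      ∃ i j k : Fin 3, (∀ l, l = i ∨ l = j ∨ l = k) ∧ i ≠ j ∧ i ≠ k ∧ j ≠ k ∧
      ∀ p q, G.Adj p q → ¬ (τ p = k ∧ τ q = k) ∧ ¬ (τ p = i ∧ τ q = j)) :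
    ∃ A B : Finset V, A.Nonempty ∧ B.Nonempty ∧ (∀ x ∈ A, ∀ y ∈ A, ¬ G.Adj x y) ∧
      (∀ x ∈ B, ∀ y, G.Adj x y → y ∈ A ∨ y ∈ B) ∧ A.card + 2 * B.card ≤ Fintype.card V := by
  obtain ⟨τ, hsurj, i, j, k, hl, hij, hik, hjk, h⟩ := h
  have hsum : (Finset.univ.filter fun x => τ x = k).card +
      ((Finset.univ.filter fun x => τ x = i).card + (Finset.univ.filter fun x => τ x = j).card) ≤
      Fintype.card V := by
    rw [← Finset.card_union_of_disjoint, ← Finset.card_union_of_disjoint]
    · exact Finset.card_le_univ _
    · rw [Finset.disjoint_left]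
      intro x hx hx'
      simp only [Finset.mem_union, Finset.mem_filter, Finset.mem_univ, true_and] at hx hx'
      rcases hx' with h1 | h1
      · exact hik (h1.symm.trans hx)
      · exact hjk (h1.symm.trans hx)
    · rw [Finset.disjoint_left]
      intro x hx hx'
      simp only [Finset.mem_filter, Finset.mem_univ, true_and] at hx hx'
      exact hij (hx.symm.trans hx')
  have hA : (Finset.univ.filter fun x => τ x = k).Nonempty := by
    obtain ⟨x, hx⟩ := hsurj k
    exact ⟨x, by simp [hx]⟩
  have hAi : ∀ x ∈ Finset.univ.filter (fun x => τ x = k),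
      ∀ y ∈ Finset.univ.filter (fun x => τ x = k), ¬ G.Adj x y := by
    intro x hx y hy hadj
    simp only [Finset.mem_filter, Finset.mem_univ, true_and] at hx hy
    exact (h x y hadj).1 ⟨hx, hy⟩
  rcases le_total (Finset.univ.filter fun x => τ x = i).card
      (Finset.univ.filter fun x => τ x = j).card with hle | hle
  · refine ⟨_, Finset.univ.filter fun x => τ x = i, hA, ?_, hAi, ?_, by omega⟩
    · obtain ⟨x, hx⟩ := hsurj i
      exact ⟨x, by simp [hx]⟩
    · intro x hx y hadj
      simp only [Finset.mem_filter, Finset.mem_univ, true_and] at hx ⊢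
      rcases hl (τ y) with h1 | h1 | h1
      · exact Or.inr h1
      · exact absurd ⟨hx, h1⟩ (h x y hadj).2
      · exact Or.inl h1
  · refine ⟨_, Finset.univ.filter fun x => τ x = j, hA, ?_, hAi, ?_, by omega⟩
    · obtain ⟨x, hx⟩ := hsurj j
      exact ⟨x, by simp [hx]⟩
    · intro x hx y hadj
      simp only [Finset.mem_filter, Finset.mem_univ, true_and] at hx ⊢
      rcases hl (τ y) with h1 | h1 | h1
      · exact absurd ⟨h1, hx⟩ (h y x hadj.symm).2
      · exact Or.inr h1
      · exact Or.inl h1

theorem cyclic_of_large (hδ : 2 * Fintype.card V < 3 * G.minDegree) : PiOneCyclic G := by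
  intro o
  rcases cyclic_or_structure (fun v => G.minDegree_le_degree v) (by omega) o with h | h
  · exact h
  · exfalso
    obtain ⟨A, B, hA, hB, hAi, hN, hcard⟩ := structure_sets h
    have hdA : A.card + G.minDegree ≤ Fintype.card V := by
      obtain ⟨a, ha⟩ := hA
      exact Pool.Agent.H54.PD.card_missed (fun v => G.minDegree_le_degree v) a A (fun x hx => hAi a ha x hx)
    have hdB : G.minDegree ≤ A.card + B.card := by
      obtain ⟨b, hb⟩ := hB
      have h1 : (G.neighborFinset b) ⊆ A ∪ B := by
        intro x hx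
        rw [SimpleGraph.mem_neighborFinset] at hx
        rw [Finset.mem_union]
        exact hN b hb x hx
      have h2 := Finset.card_le_card h1
      have h3 := Finset.card_union_le A B
      have h4 := G.minDegree_le_degree b
      rw [← G.card_neighborFinset_eq_degree] at h4
      omega
    omega

end Main

lemma mem_two_thirds {W : Type*} (H : SimpleGraph W) :
    (2 / 3 : ℝ) ∈ {α : ℝ | 0 ≤ α ∧ ∀ (V : Type) [Fintype V] (G : SimpleGraph V)
      [DecidableRel G.Adj], H.Free G → α * Fintype.card V < G.minDegree → PiOneCyclic G} := by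
  refine ⟨by norm_num, ?_⟩
  intro V _ G _ _ hδ
  classical
  apply cyclic_of_large
  have h1 : (2 * Fintype.card V : ℝ) < 3 * G.minDegree := by linarith
  exact_mod_cast h1

lemma deltaCyc_le {W : Type*} (H : SimpleGraph W) {α : ℝ}
    (h : α ∈ {α : ℝ | 0 ≤ α ∧ ∀ (V : Type) [Fintype V] (G : SimpleGraph V)
      [DecidableRel G.Adj], H.Free G → α * Fintype.card V < G.minDegree → PiOneCyclic G}) :
    deltaCyc H ≤ α := csInf_le ⟨0, fun _ hx => hx.1⟩ h

lemma le_deltaCyc {W : Type*} (H : SimpleGraph W) {m : ℕ} (hm : 2 ≤ m)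
    (hfree : H.Free (ext m)) : (2 * m / (3 * m + 1) : ℝ) ≤ deltaCyc H := by
  classical
  refine le_csInf ⟨_, mem_two_thirds H⟩ ?_
  rintro α ⟨-, hα⟩
  by_contra hcon
  push Not at hcon
  refine ext_not_cyclic m hm (hα _ (ext m) hfree ?_)
  have h1 : 2 * m ≤ (ext m).minDegree :=
    (ext m).le_minDegree_of_forall_le_degree _ (ext_degree m (by omega))
  have h2 : (2 * m : ℝ) ≤ ((ext m).minDegree : ℝ) := by exact_mod_cast h1
  have h3 : ((Fintype.card (Fin (m + 1) ⊕ (Bool × Fin m)) : ℕ) : ℝ) = 3 * m + 1 := by
    rw [Fintype.card_sum, Fintype.card_prod, Fintype.card_bool, Fintype.card_fin,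
      Fintype.card_fin]
    push_cast
    ring
  rw [h3]
  have h4 : (0 : ℝ) < 3 * m + 1 := by positivity
  rw [lt_div_iff₀ h4] at hcon
  linarith

end Pool.Agent.H54.PD
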