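import Mathlib

/-!
Graphs with minimum degree above 3n/5 and group-valued functions on the edges that are flat on
4-cycles: either all values are powers of one element or the graph has a special structure.
-/

namespace Pool.Agent.H54.PD

open Finset

section count

variable {V : Type*} [Fintype V] (G : SimpleGraph V) [DecidableRel G.Adj]

lemma degree_eq_sum (a : V) : G.degree a = ∑ p : V, if G.Adj a p then 1 else 0 := by
  rw [← G.card_neighborFinset_eq_degree, SimpleGraph.neighborFinset_eq_filter, Finset.card_filter]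

variable {G} {δ : ℕ}

lemma excl (hδ : ∀ v, δ ≤ G.degree v) (h5 : 3 * Fintype.card V < 5 * δ) {a b c x : V}
    (h1 : ∀ p, ¬ (G.Adj a p ∧ G.Adj b p ∧ G.Adj c p))
    (h2 : ∀ p, ¬ (G.Adj b p ∧ G.Adj c p ∧ G.Adj x p))
    (h3 : ∀ p, ¬ (G.Adj a p ∧ G.Adj c p ∧ G.Adj x p)) : False := by
  have hle : ∑ p : V, (((if G.Adj a p then 1 else 0) + (if G.Adj b p then 1 else 0)) +
      ((if G.Adj x p then 1 else 0) +
      ((if G.Adj c p then 1 else 0) + (if G.Adj c p then 1 else 0)))) ≤ ∑ _p : V, 3 := by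
    refine sum_le_sum fun p _ => ?_
    specialize h1 p
    specialize h2 p
    specialize h3 p
    by_cases ha : G.Adj a p <;> by_cases hb : G.Adj b p <;> by_cases hc : G.Adj c p <;>
      by_cases hx : G.Adj x p <;> simp_all
  rw [sum_add_distrib, sum_add_distrib, sum_add_distrib, sum_add_distrib, ← degree_eq_sum,
    ← degree_eq_sum, ← degree_eq_sum, ← degree_eq_sum, sum_const, card_univ, smul_eq_mul] at hle
  have := hδ a
  have := hδ b
  have := hδ c
  have := hδ x
  omega

lemma penta (hδ : ∀ v, δ ≤ G.degree v) (h5 : 3 * Fintype.card V < 5 * δ) {a a' b b' c : V}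
    (h1 : ∀ p, ¬ (G.Adj a p ∧ G.Adj b p ∧ G.Adj c p))
    (h2 : ∀ p, ¬ (G.Adj a' p ∧ G.Adj b p ∧ G.Adj c p))
    (h3 : ∀ p, ¬ (G.Adj a p ∧ G.Adj b' p ∧ G.Adj c p))
    (h4 : ∀ p, ¬ (G.Adj a p ∧ G.Adj a' p ∧ G.Adj b' p))
    (h5' : ∀ p, ¬ (G.Adj a' p ∧ G.Adj b p ∧ G.Adj b' p)) : False := by
  have hle : ∑ p : V, (((if G.Adj a p then 1 else 0) + (if G.Adj a' p then 1 else 0)) +
      ((if G.Adj b p then 1 else 0) +
      ((if G.Adj b' p then 1 else 0) + (if G.Adj c p then 1 else 0)))) ≤ ∑ _p : V, 3 := by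
    refine sum_le_sum fun p _ => ?_
    specialize h1 p
    specialize h2 p
    specialize h3 p
    specialize h4 p
    specialize h5' p
    by_cases ha : G.Adj a p <;> by_cases hb : G.Adj b p <;> by_cases hc : G.Adj c p <;>
      by_cases ha' : G.Adj a' p <;> by_cases hb' : G.Adj b' p <;> simp_all
  rw [sum_add_distrib, sum_add_distrib, sum_add_distrib, sum_add_distrib, ← degree_eq_sum,
    ← degree_eq_sum, ← degree_eq_sum, ← degree_eq_sum, ← degree_eq_sum, sum_const, card_univ,
    smul_eq_mul] at hle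
  have := hδ a
  have := hδ b
  have := hδ c
  have := hδ a'
  have := hδ b'
  omega

lemma common (hδ : ∀ v, δ ≤ G.degree v) (h5 : 3 * Fintype.card V < 5 * δ) (u v : V) :
    ∃ w, G.Adj u w ∧ G.Adj w v := by
  by_contra hne
  push Not at hne
  have hle : ∑ p : V, ((if G.Adj u p then 1 else 0) + (if G.Adj v p then 1 else 0)) ≤
      ∑ _p : V, 1 := by
    refine sum_le_sum fun p _ => ?_
    have := hne p
    by_cases ha : G.Adj u p
    · have h2 : ¬ G.Adj v p := fun h => this ha h.symm
      simp [ha, h2]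
    · simp only [ha, if_false]
      split_ifs <;> simp
  rw [sum_add_distrib, ← degree_eq_sum, ← degree_eq_sum, sum_const, card_univ, smul_eq_mul] at hle
  have := hδ u
  have := hδ v
  omega

end count

section structureThm

variable {V : Type*} [Fintype V] {G : SimpleGraph V} [DecidableRel G.Adj] {δ : ℕ}

/-- bound on sets missed by a neighbourhood -/
lemma card_missed [DecidableEq V] (hδ : ∀ v, δ ≤ G.degree v) (q : V) (S : Finset V)
    (h : ∀ x ∈ S, ¬ G.Adj q x) : S.card + δ ≤ Fintype.card V := by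
  have hd : Disjoint S (G.neighborFinset q) := by
    rw [Finset.disjoint_left]
    intro x hx hx'
    rw [SimpleGraph.mem_neighborFinset] at hx'
    exact h x hx hx'
  have h1 := Finset.card_union_of_disjoint hd
  have h2 := Finset.card_le_univ (S ∪ G.neighborFinset q)
  have h3 := hδ q
  rw [← G.card_neighborFinset_eq_degree] at h3
  omega

/-- The structure of a dense graph whose vertices are in three classes such that no vertex has
neighbours in all three. -/
lemma structure_aux [DecidableEq V] (hδ : ∀ v, δ ≤ G.degree v)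
    (h5 : 3 * Fintype.card V < 5 * δ)
    (τ : V → Fin 3) (hτ : Function.Surjective τ) (hN : ∀ p, ∃ k, ∀ q, G.Adj p q → τ q ≠ k) :
    ∃ σ : Fin 3 → Fin 3, (∀ i, σ (σ i) = i) ∧ ∀ p q, G.Adj p q → τ q ≠ σ (τ p) := by
  classical
  choose κ hκ using hN
  set n := Fintype.card V with hn
  let Vc : Fin 3 → Finset V := fun k => univ.filter fun p => τ p = k
  let Kc : Fin 3 → Finset V := fun k => univ.filter fun p => κ p = k
  have hVsum : ∑ k, (Vc k).card = n := by
    have := Finset.card_eq_sum_card_fiberwise (s := (univ : Finset V)) (t := (univ : Finset (Fin 3)))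
      (f := τ) (fun _ _ => Finset.mem_coe.2 (mem_univ _))
    rw [card_univ] at this
    exact this.symm
  have hKsum : ∑ k, (Kc k).card = n := by
    have := Finset.card_eq_sum_card_fiberwise (s := (univ : Finset V)) (t := (univ : Finset (Fin 3)))
      (f := κ) (fun _ _ => Finset.mem_coe.2 (mem_univ _))
    rw [card_univ] at this
    exact this.symm
  rw [Fin.sum_univ_three] at hVsum hKsum
  have hKne : ∀ k, ∃ q, κ q = k := by
    intro k
    obtain ⟨i, j, hij⟩ : ∃ i j : Fin 3, ∀ l, l ≠ i → l ≠ j → l = k := by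
      fin_cases k
      · exact ⟨1, 2, by decide⟩
      · exact ⟨0, 2, by decide⟩
      · exact ⟨0, 1, by decide⟩
    obtain ⟨x, hx⟩ := hτ i
    obtain ⟨y, hy⟩ := hτ j
    obtain ⟨q, hq1, hq2⟩ := common hδ h5 x y
    refine ⟨q, hij _ ?_ ?_⟩
    · have := hκ q x hq1.symm
      rw [hx] at this
      exact this.symm
    · have := hκ q y hq2
      rw [hy] at this
      exact this.symm
  have hV : ∀ k, (Vc k).card + δ ≤ n := by
    intro k
    obtain ⟨q, hq⟩ := hKne k
    refine card_missed hδ q _ ?_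
    intro x hx hadj
    simp only [Vc, mem_filter, mem_univ, true_and] at hx
    exact hκ q x hadj (hx.trans hq.symm)
  have hK : ∀ k, (Kc k).card + δ ≤ n := by
    intro k
    obtain ⟨x, hx⟩ := hτ k
    refine card_missed hδ x _ ?_
    intro p hp hadj
    simp only [Kc, mem_filter, mem_univ, true_and] at hp
    exact hκ p x hadj.symm (hx.trans hp.symm)
  -- a vertex of type (i, j)
  have hT : ∀ p, ((Vc (κ p)) ∪ (Kc (τ p))).card + δ ≤ n := by
    intro p
    refine card_missed hδ p _ ?_
    intro x hx hadj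
    simp only [Vc, Kc, mem_union, mem_filter, mem_univ, true_and] at hx
    rcases hx with hx | hx
    · exact hκ p x hadj hx
    · exact hκ x p hadj.symm hx.symm
  have hT2 : ∀ p, (Vc (κ p)).card + (Kc (τ p)).card + δ ≤ n + ((Vc (κ p)) ∩ (Kc (τ p))).card := by
    intro p
    have h1 := hT p
    have h2 := Finset.card_union_add_card_inter (Vc (κ p)) (Kc (τ p))
    omega
  have hV' : ∀ k, 2 * δ ≤ n + (Vc k).card := by
    intro k
    have := hV 0
    have := hV 1
    have := hV 2
    fin_cases k <;> simp only [Fin.zero_eta, Fin.mk_one, Fin.reduceFinMk] <;> omega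
  have hK' : ∀ k, 2 * δ ≤ n + (Kc k).card := by
    intro k
    have := hK 0
    have := hK 1
    have := hK 2
    fin_cases k <;> simp only [Fin.zero_eta, Fin.mk_one, Fin.reduceFinMk] <;> omega
  have hVV : ∀ j l, j ≠ l → δ ≤ (Vc j).card + (Vc l).card := by
    intro j l hjl
    have h0 := hV 0
    have h1 := hV 1
    have h2 := hV 2
    fin_cases j <;> fin_cases l <;>
      first | exact absurd rfl hjl | (simp only [Fin.zero_eta, Fin.mk_one, Fin.reduceFinMk]; omega)
  -- the class determines κ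
  have huniq : ∀ p p', τ p = τ p' → κ p = κ p' := by
    intro p p' hpp
    by_contra hne
    have h1 := hT2 p
    have h2 := hT2 p'
    rw [← hpp] at h2
    have hd : Disjoint (Vc (κ p) ∩ Kc (τ p)) (Vc (κ p') ∩ Kc (τ p)) := by
      rw [Finset.disjoint_left]
      intro x hx hx'
      simp only [Vc, Kc, mem_inter, mem_filter, mem_univ, true_and] at hx hx'
      exact hne (hx.1.symm.trans hx'.1)
    have h3 := Finset.card_union_of_disjoint hd
    have h4 : (Vc (κ p) ∩ Kc (τ p) ∪ Vc (κ p') ∩ Kc (τ p)).card ≤ (Kc (τ p)).card :=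
      Finset.card_le_card (Finset.union_subset Finset.inter_subset_right Finset.inter_subset_right)
    have h5 := hVV _ _ hne
    have h6 := hK' (τ p)
    omega
  choose rep hrep using hτ
  refine ⟨fun k => κ (rep k), ?_, ?_⟩
  · intro i
    have h1 := hT2 (rep i)
    have h2 := hV' (κ (rep i))
    have h3 := hK' (τ (rep i))
    have h4 : 0 < (Vc (κ (rep i)) ∩ Kc (τ (rep i))).card := by omega
    obtain ⟨x, hx⟩ := Finset.card_pos.1 h4
    simp only [Vc, Kc, mem_inter, mem_filter, mem_univ, true_and] at hx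
    have h5 : κ (rep (κ (rep i))) = κ x := huniq _ _ (by rw [hrep, hx.1])
    change κ (rep (κ (rep i))) = i
    rw [h5, hx.2, hrep]
  · intro p q hadj
    have h1 : κ (rep (τ p)) = κ p := huniq _ _ (hrep _)
    change τ q ≠ κ (rep (τ p))
    rw [h1]
    exact hκ p q hadj

/-- either the identity or the transposition of two classes -/
lemma structure_cases [DecidableEq V] (hδ : ∀ v, δ ≤ G.degree v)
    (h5 : 3 * Fintype.card V < 5 * δ)
    (τ : V → Fin 3) (hτ : Function.Surjective τ) (hN : ∀ p, ∃ k, ∀ q, G.Adj p q → τ q ≠ k) :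
    (∀ p q, G.Adj p q → τ p ≠ τ q) ∨
    ∃ i j k : Fin 3, (∀ l, l = i ∨ l = j ∨ l = k) ∧ i ≠ j ∧ i ≠ k ∧ j ≠ k ∧
      ∀ p q, G.Adj p q → ¬ (τ p = k ∧ τ q = k) ∧ ¬ (τ p = i ∧ τ q = j) := by
  obtain ⟨σ, hσ, h⟩ := structure_aux hδ h5 τ hτ hN
  have key : ∀ σ : Fin 3 → Fin 3, (∀ i, σ (σ i) = i) → (∀ i, σ i = i) ∨
      ∃ i j k : Fin 3, (∀ l, l = i ∨ l = j ∨ l = k) ∧ i ≠ j ∧ i ≠ k ∧ j ≠ k ∧
        σ i = j ∧ σ k = k := by decide
  rcases key σ hσ with h1 | ⟨i, j, k, hl, hij, hik, hjk, h1, h2⟩
  · left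
    intro p q hadj he
    have := h p q hadj
    rw [h1, he] at this
    exact this rfl
  · right
    refine ⟨i, j, k, hl, hij, hik, hjk, fun p q hadj => ⟨?_, ?_⟩⟩
    · rintro ⟨h3, h4⟩
      have := h p q hadj
      rw [h3, h4, h2] at this
      exact this rfl
    · rintro ⟨h3, h4⟩
      have := h p q hadj
      rw [h3, h4, h1] at this
      exact this rfl

end structureThm

end Pool.Agent.H54.PD
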