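import Pool.Agent.H54.PD.Index

/-!
# Graphs without stable cutset, sparse graphs, cycles
-/

set_option autoImplicit false

namespace Pool.Agent.H54.PD

open SimpleGraph Finset

/-- `H` has no stable cutset: deleting a stable (independent) set of vertices never disconnects
`H`. -/
def NoStableCutset {W : Type*} (H : SimpleGraph W) : Prop :=
  ∀ J : Set W, H.IsIndepSet J → (H.induce Jᶜ).Preconnected

lemma preconnected_sides {W : Type*} {H : SimpleGraph W} {J L : Set W}
    (hp : (H.induce Jᶜ).Preconnected)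
    (hL : ∀ v ∈ L, ∀ w, w ∉ J → H.Adj v w → w ∈ L) {v w : W} (hv : v ∈ L) (hvJ : v ∉ J)
    (hw : w ∉ J) : w ∈ L := by
  have h1 : (H.induce Jᶜ).Reachable ⟨v, hvJ⟩ ⟨w, hw⟩ := hp _ _
  have key : ∀ {x y : (Jᶜ : Set W)}, (H.induce Jᶜ).Walk x y → x.1 ∈ L → y.1 ∈ L := by
    intro x y p
    induction p with
    | nil => exact id
    | @cons x y z h p ih =>
      intro hx
      exact ih (hL x.1 hx y.1 y.2 h)
  obtain ⟨p⟩ := h1
  exact key p hv

section

variable {W : Type*} [Fintype W] {H : SimpleGraph W}

/-- a partition of a graph without stable cutset is trivial -/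
lemma partition_trivial [DecidableEq W] (hH : NoStableCutset H) {J L₁ L₂ : Finset W}
    (hcov : ∀ v, v ∈ J ∨ v ∈ L₁ ∨ v ∈ L₂)
    (hJ : ∀ v ∈ J, ∀ w ∈ J, ¬ H.Adj v w) (hL : ∀ v ∈ L₁, ∀ w ∈ L₂, v ≠ w ∧ ¬ H.Adj v w) :
    (∀ v, v ∈ J ∨ v ∈ L₁) ∨ (∀ v, v ∈ J ∨ v ∈ L₂) := by
  by_contra hcon
  push Not at hcon
  obtain ⟨⟨v, hvJ, hv1⟩, ⟨w, hwJ, hw2⟩⟩ := hcon
  have hv2 : v ∈ L₂ := by
    rcases hcov v with h | h | h
    · exact absurd h hvJ
    · exact absurd h hv1
    · exact h
  have hw1 : w ∈ L₁ := by
    rcases hcov w with h | h | h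
    · exact absurd h hwJ
    · exact h
    · exact absurd h hw2
  have hind : H.IsIndepSet (J : Set W) := fun x hx y hy _ => hJ x hx y hy
  have h1 := preconnected_sides (L := (L₁ : Set W)) (hH _ hind) (fun x hx y hy hadj => by
    rcases hcov y with h | h | h
    · exact absurd h hy
    · exact h
    · exact absurd hadj (hL x hx y h).2) hw1 hwJ hvJ
  exact hv1 h1

/-- the index of a graph is at most the maximum of `|H| - α(H)` and `|H| / 2` -/
theorem extIndex_le_max (H : SimpleGraph W) :
    extIndex H ≤ max (Fintype.card W - H.indepNum) (Fintype.card W / 2) := by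
  classical
  obtain ⟨S, hS⟩ := H.exists_isNIndepSet_indepNum
  set M := max (Fintype.card W - H.indepNum) (Fintype.card W / 2) with hM
  have h1 : Fintype.card W - H.indepNum ≤ M := le_max_left _ _
  have h2 : Fintype.card W / 2 ≤ M := le_max_right _ _
  have hSc : S.card ≤ Fintype.card W := Finset.card_le_univ S
  have hSi : S.card = H.indepNum := hS.card_eq
  obtain ⟨J, hJS, hJc⟩ := Finset.exists_subset_card_eq
    (show min S.card (M + 1) ≤ S.card from min_le_left _ _)
  rw [extIndex_le_iff, contained_ext_iff]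
  refine ⟨J, Jᶜ, ∅, ?_, ?_, ?_, ?_, ?_, ?_⟩
  · intro v
    by_cases hv : v ∈ J
    · exact Or.inl hv
    · exact Or.inr (Or.inl (Finset.mem_compl.2 hv))
  · intro v hv w hw hadj
    exact hS.isIndepSet (hJS hv) (hJS hw) hadj.ne hadj
  · intro v _ w hw
    exact absurd hw (Finset.notMem_empty _)
  · omega
  · rw [Finset.card_compl, hJc]
    omega
  · simp

/-- the index of a graph without stable cutset -/
theorem extIndex_of_noStableCutset (hH : NoStableCutset H) :
    extIndex H = max (Fintype.card W - H.indepNum) (Fintype.card W / 2) := by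
  classical
  refine le_antisymm (extIndex_le_max H) ?_
  have h0 := contained_extIndex H
  rw [contained_ext_iff] at h0
  obtain ⟨J, L₁, L₂, hcov, hJ, hL, hJc, hL1, hL2⟩ := h0
  have hJi : J.card ≤ H.indepNum :=
    IsIndepSet.card_le_indepNum (t := J) (fun x hx y hy _ => hJ x hx y hy)
  have hle : ∀ L : Finset W, (∀ v, v ∈ J ∨ v ∈ L) → Fintype.card W ≤ J.card + L.card := by
    intro L h
    rw [← Finset.card_univ]
    refine (Finset.card_le_card ?_).trans (Finset.card_union_le J L)
    intro v _
    rw [mem_union]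
    exact h v
  rcases partition_trivial hH hcov hJ hL with h | h
  · have h1 := hle L₁ h
    exact max_le (by omega) (by omega)
  · have h1 := hle L₂ h
    exact max_le (by omega) (by omega)

/-- the general upper bound, for every graph -/
theorem upper_general (H : SimpleGraph W) {m : ℕ} (h4 : 4 ≤ m)
    (h1 : Fintype.card W - H.indepNum ≤ m) (h2 : Fintype.card W / 2 ≤ m) :
    deltaCyc H ≤ 2 * ((m : ℝ) - 1) / (3 * (m : ℝ) - 2) := by
  obtain ⟨S, hS⟩ := H.exists_isNIndepSet_indepNum
  have hSi : S.card = H.indepNum := hS.card_eq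
  refine upper_extIndex h4 (admissible_of_stable S ?_ (by omega) (by omega))
  intro v hv w hw hadj
  exact hS.isIndepSet hv hw hadj.ne hadj

/-- exact value for graphs without stable cutset -/
theorem exact_dense (hH : NoStableCutset H) (h4 : 4 ≤ extIndex H) :
    deltaCyc H = 2 * ((extIndex H : ℝ) - 1) / (3 * (extIndex H : ℝ) - 2) := by
  refine le_antisymm ?_ (lower_extIndex (by omega))
  have h1 := extIndex_of_noStableCutset hH
  exact upper_general H h4 (by omega) (by omega)

/-- exact value for graphs with few earlier neighbours in an ordering -/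
theorem exact_sparse {d : ℕ} {f : W → ℕ} (hf : IsOrdering H d f) (hd : 2 * d ≤ extIndex H)
    (h4 : 4 ≤ extIndex H) :
    deltaCyc H = 2 * ((extIndex H : ℝ) - 1) / (3 * (extIndex H : ℝ) - 2) :=
  le_antisymm (upper_extIndex h4 (admissible_of_ordering (by omega) (contained_extIndex H) hf hd))
    (lower_extIndex (by omega))

end

section cycles

lemma cycle_adj {k : ℕ} {u v : Fin k} (h : (cycleGraph k).Adj u v) :
    (v : ℕ) = u + 1 ∨ (u : ℕ) = v + 1 ∨ ((u : ℕ) = 0 ∧ (v : ℕ) + 1 = k) ∨
      ((v : ℕ) = 0 ∧ (u : ℕ) + 1 = k) := by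
  rw [cycleGraph_adj'] at h
  have hu := u.is_lt
  have hv := v.is_lt
  rw [Fin.sub_def, Fin.sub_def] at h
  simp only at h
  rcases h with h | h
  · rcases Nat.lt_or_ge (k - v + u) k with h1 | h1
    · rw [Nat.mod_eq_of_lt h1] at h
      omega
    · rw [Nat.mod_eq_sub_mod h1, Nat.mod_eq_of_lt (by omega)] at h
      omega
  · rcases Nat.lt_or_ge (k - u + v) k with h1 | h1
    · rw [Nat.mod_eq_of_lt h1] at h
      omega
    · rw [Nat.mod_eq_sub_mod h1, Nat.mod_eq_of_lt (by omega)] at h
      omega

lemma cycle_contained {k m : ℕ} (hm : 3 ≤ m) (h1 : k ≤ 3 * m + 1) (h2 : 3 * m ≤ k + 1) :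
    cycleGraph k ⊑ ext m := by
  classical
  rw [contained_ext_iff]
  obtain ⟨l, hl⟩ : ∃ l, k = l + 2 * m + 1 := ⟨k - (2 * m + 1), by omega⟩
  refine ⟨univ.filter fun x : Fin k => (x : ℕ) = 0 ∨ (l < (x : ℕ) ∧ ((x : ℕ) - l) % 2 = 1),
    univ.filter fun x : Fin k => 0 < (x : ℕ) ∧ (x : ℕ) ≤ l,
    univ.filter fun x : Fin k => l < (x : ℕ) ∧ ((x : ℕ) - l) % 2 = 0, ?_, ?_, ?_, ?_, ?_, ?_⟩
  · intro v
    simp only [mem_filter, mem_univ, true_and]
    omega
  · intro v hv w hw hadj
    simp only [mem_filter, mem_univ, true_and] at hv hw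
    have := cycle_adj hadj
    omega
  · intro v hv w hw
    simp only [mem_filter, mem_univ, true_and] at hv hw
    refine ⟨fun h => ?_, fun hadj => ?_⟩
    · rw [h] at hv
      omega
    · have := cycle_adj hadj
      have := v.is_lt
      have := w.is_lt
      omega
  · have h3 : (univ.filter fun x : Fin k => (x : ℕ) = 0 ∨
        (l < (x : ℕ) ∧ ((x : ℕ) - l) % 2 = 1)).card ≤ (range (m + 1)).card := by
      refine Finset.card_le_card_of_injOn
        (fun x => if (x : ℕ) = 0 then 0 else ((x : ℕ) - l + 1) / 2) ?_ ?_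
      · intro x hx
        simp only [coe_filter, mem_univ, true_and, Set.mem_ofPred_eq] at hx
        simp only [coe_range, Set.mem_Iio]
        have := x.is_lt
        split_ifs <;> omega
      · intro x hx y hy hxy
        simp only [coe_filter, mem_univ, true_and, Set.mem_ofPred_eq] at hx hy
        simp only at hxy
        apply Fin.ext
        split_ifs at hxy <;> omega
    rwa [card_range] at h3
  · have h3 : (univ.filter fun x : Fin k => 0 < (x : ℕ) ∧ (x : ℕ) ≤ l).card ≤ (range m).card := by
      refine Finset.card_le_card_of_injOn (fun x => (x : ℕ) - 1) ?_ ?_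
      · intro x hx
        simp only [coe_filter, mem_univ, true_and, Set.mem_ofPred_eq] at hx
        simp only [coe_range, Set.mem_Iio]
        omega
      · intro x hx y hy hxy
        simp only [coe_filter, mem_univ, true_and, Set.mem_ofPred_eq] at hx hy
        simp only at hxy
        apply Fin.ext
        omega
    rwa [card_range] at h3
  · have h3 : (univ.filter fun x : Fin k => l < (x : ℕ) ∧ ((x : ℕ) - l) % 2 = 0).card ≤
        (range m).card := by
      refine Finset.card_le_card_of_injOn (fun x => ((x : ℕ) - l) / 2 - 1) ?_ ?_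
      · intro x hx
        simp only [coe_filter, mem_univ, true_and, Set.mem_ofPred_eq] at hx
        simp only [coe_range, Set.mem_Iio]
        have := x.is_lt
        omega
      · intro x hx y hy hxy
        simp only [coe_filter, mem_univ, true_and, Set.mem_ofPred_eq] at hx hy
        simp only at hxy
        apply Fin.ext
        omega
    rwa [card_range] at h3

/-- the index of a cycle -/
theorem extIndex_cycle {k : ℕ} (hk : 11 ≤ k) : extIndex (cycleGraph k) = (k + 1) / 3 := by
  refine le_antisymm ?_ ?_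
  · rw [extIndex_le_iff]
    exact cycle_contained (by omega) (by omega) (by omega)
  · have := card_le_extIndex (cycleGraph k)
    rw [Fintype.card_fin] at this
    omega

lemma cycle_ordering (k : ℕ) : IsOrdering (cycleGraph k) 2 (fun v => (v : ℕ)) := by
  classical
  refine ⟨fun a b h => Fin.ext h, ?_⟩
  intro v
  have h3 : (univ.filter fun w : Fin k => (w : ℕ) < v ∧ (cycleGraph k).Adj w v).card ≤
      ({(v : ℕ) - 1, 0} : Finset ℕ).card := by
    refine Finset.card_le_card_of_injOn (fun x => (x : ℕ)) ?_ ?_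
    · intro x hx
      simp only [coe_filter, mem_univ, true_and, Set.mem_ofPred_eq] at hx
      have := cycle_adj hx.2
      simp only [coe_insert, coe_singleton, Set.mem_insert_iff, Set.mem_singleton_iff]
      omega
    · intro x _ y _ hxy
      exact Fin.ext hxy
  refine le_trans (le_of_eq ?_) (h3.trans Finset.card_le_two)
  congr!

/-- the threshold for cycles -/
theorem exact_cycle {k : ℕ} (hk : 11 ≤ k) :
    deltaCyc (cycleGraph k) =
      2 * ((((k + 1) / 3 : ℕ) : ℝ) - 1) / (3 * (((k + 1) / 3 : ℕ) : ℝ) - 2) := by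
  have h := extIndex_cycle hk
  rw [← h]
  exact exact_sparse (cycle_ordering k) (by omega) (by omega)

end cycles

end Pool.Agent.H54.PD
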