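import Pool.Agent.H54.PD.Base

/-!
# Greedy embedding into graphs with a stable class and two classes without edges between them
-/

set_option autoImplicit false

namespace Pool.Agent.H54.PD

open SimpleGraph Finset

section Greedy

variable {W V : Type*} [Fintype W] {H : SimpleGraph W} {G : SimpleGraph V}

/-- embedding vertex by vertex -/
lemma greedy (f : W → ℕ) (hf : Function.Injective f) (cls : W → Fin 3) (cl : V → Fin 3)
    [Nonempty V]
    (hstep : ∀ (v : W) (φ : W → V), (∀ w, f w < f v → cl (φ w) = cls w) →
      (∀ w w', f w < f v → f w' < f v → φ w = φ w' → w = w') →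
      ∃ x : V, cl x = cls v ∧ (∀ w, f w < f v → φ w ≠ x) ∧
        ∀ w, f w < f v → H.Adj w v → G.Adj (φ w) x) : H ⊑ G := by
  classical
  have key : ∀ k : ℕ, ∃ φ : W → V, (∀ w, f w < k → cl (φ w) = cls w) ∧
      (∀ w w', f w < k → f w' < k → φ w = φ w' → w = w') ∧
      ∀ w w', f w < k → f w' < k → H.Adj w w' → G.Adj (φ w) (φ w') := by
    intro k
    induction k with
    | zero =>
      exact ⟨fun _ => Classical.arbitrary V, fun w h => absurd h (Nat.not_lt_zero _),
        fun w w' h => absurd h (Nat.not_lt_zero _), fun w w' h => absurd h (Nat.not_lt_zero _)⟩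
    | succ k ih =>
      obtain ⟨φ, h1, h2, h3⟩ := ih
      by_cases hv : ∃ v, f v = k
      · obtain ⟨v, rfl⟩ := hv
        obtain ⟨x, hx1, hx2, hx3⟩ := hstep v φ h1 h2
        have hlt : ∀ w, f w < f v + 1 → w ≠ v → f w < f v := by
          intro w hw hwv
          have : f w ≠ f v := fun h => hwv (hf h)
          omega
        refine ⟨Function.update φ v x, ?_, ?_, ?_⟩
        · intro w hw
          by_cases hwv : w = v
          · subst hwv
            rw [Function.update_self]
            exact hx1
          · rw [Function.update_of_ne hwv]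
            exact h1 w (hlt w hw hwv)
        · intro w w' hw hw' he
          by_cases hwv : w = v
          · by_cases hwv' : w' = v
            · rw [hwv, hwv']
            · rw [hwv, Function.update_self, Function.update_of_ne hwv'] at he
              exact absurd he.symm (hx2 w' (hlt w' hw' hwv'))
          · by_cases hwv' : w' = v
            · rw [hwv', Function.update_self, Function.update_of_ne hwv] at he
              exact absurd he (hx2 w (hlt w hw hwv))
            · rw [Function.update_of_ne hwv, Function.update_of_ne hwv'] at he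
              exact h2 w w' (hlt w hw hwv) (hlt w' hw' hwv') he
        · intro w w' hw hw' hadj
          by_cases hwv : w = v
          · by_cases hwv' : w' = v
            · rw [hwv, hwv'] at hadj
              exact (H.loopless.irrefl _ hadj).elim
            · rw [hwv, Function.update_self, Function.update_of_ne hwv']
              exact (hx3 w' (hlt w' hw' hwv') (hwv ▸ hadj.symm)).symm
          · by_cases hwv' : w' = v
            · rw [hwv', Function.update_self, Function.update_of_ne hwv]
              exact hx3 w (hlt w hw hwv) (hwv' ▸ hadj)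
            · rw [Function.update_of_ne hwv, Function.update_of_ne hwv']
              exact h3 w w' (hlt w hw hwv) (hlt w' hw' hwv') hadj
      · push Not at hv
        have hlt : ∀ w, f w < k + 1 → f w < k := fun w hw => by
          have := hv w
          omega
        exact ⟨φ, fun w hw => h1 w (hlt w hw), fun w w' hw hw' => h2 w w' (hlt w hw) (hlt w' hw'),
          fun w w' hw hw' => h3 w w' (hlt w hw) (hlt w' hw')⟩
  obtain ⟨φ, -, h2, h3⟩ := key (univ.sup f + 1)
  have hlt : ∀ w, f w < univ.sup f + 1 := fun w =>
    Nat.lt_succ_of_le (Finset.le_sup (f := f) (mem_univ w))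
  exact ⟨⟨⟨φ, fun {a b} hab => h3 a b (hlt a) (hlt b) hab⟩,
    fun a b hab => h2 a b (hlt a) (hlt b) hab⟩⟩

/-- embedding from numerical conditions -/
lemma embed_of_counts [Fintype V] [DecidableEq V] [Nonempty V]
    (f : W → ℕ) (hf : Function.Injective f) (cls : W → Fin 3) (cl : V → Fin 3)
    (M : Fin 3 → Fin 3 → ℕ)
    (hM : ∀ (v w : W) (x : V), H.Adj w v → cl x = cls w →
      ∀ S : Finset V, (∀ y ∈ S, cl y = cls v ∧ y ≠ x ∧ ¬ G.Adj x y) →
      S.card ≤ M (cls w) (cls v))
    [DecidableEq W] [DecidableRel H.Adj]
    (hcount : ∀ v : W, (univ.filter fun w => f w < f v ∧ cls w = cls v).card +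
      ∑ w ∈ univ.filter (fun w => f w < f v ∧ H.Adj w v), M (cls w) (cls v) <
        (univ.filter fun y => cl y = cls v).card) : H ⊑ G := by
  classical
  refine greedy f hf cls cl ?_
  intro v φ h1 h2
  set C := univ.filter fun y => cl y = cls v with hC
  set A := (univ.filter fun w => f w < f v ∧ cls w = cls v).image φ with hA
  set B := (univ.filter fun w => f w < f v ∧ H.Adj w v).biUnion
    (fun w => C.filter fun y => y ≠ φ w ∧ ¬ G.Adj (φ w) y) with hB
  have hAc : A.card ≤ (univ.filter fun w => f w < f v ∧ cls w = cls v).card :=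
    Finset.card_image_le
  have hBc : B.card ≤ ∑ w ∈ univ.filter (fun w => f w < f v ∧ H.Adj w v),
      M (cls w) (cls v) := by
    refine Finset.card_biUnion_le.trans (Finset.sum_le_sum ?_)
    intro w hw
    rw [mem_filter] at hw
    refine hM v w (φ w) hw.2.2 (h1 w hw.2.1) _ ?_
    intro y hy
    rw [mem_filter, hC, mem_filter] at hy
    exact ⟨hy.1.2, hy.2⟩
  have hlt : (A ∪ B).card < C.card :=
    lt_of_le_of_lt ((Finset.card_union_le A B).trans (Nat.add_le_add hAc hBc)) (hcount v)
  obtain ⟨x, hxC, hxAB⟩ := Finset.exists_mem_notMem_of_card_lt_card hlt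
  rw [hC, mem_filter] at hxC
  rw [mem_union, not_or] at hxAB
  have hne : ∀ w, f w < f v → φ w ≠ x := by
    intro w hw he
    apply hxAB.1
    rw [hA, mem_image]
    refine ⟨w, ?_, he⟩
    rw [mem_filter]
    refine ⟨mem_univ _, hw, ?_⟩
    rw [← h1 w hw, he, hxC.2]
  refine ⟨x, hxC.2, hne, ?_⟩
  intro w hw hadj
  by_contra hcon
  apply hxAB.2
  rw [hB, mem_biUnion]
  refine ⟨w, by rw [mem_filter]; exact ⟨mem_univ _, hw, hadj⟩, ?_⟩
  rw [mem_filter, hC, mem_filter]
  exact ⟨⟨mem_univ _, hxC.2⟩, (hne w hw).symm, hcon⟩

end Greedy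

end Pool.Agent.H54.PD
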