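import Pool.Agent.H54.PD.Limit

/-!
# Further consequences: bounds for all graphs, complete equipartite graphs, maximum degree
-/

set_option autoImplicit false

namespace Pool.Agent.H54.PD

open SimpleGraph Finset

lemma thr_eq {m : ℕ} (hm : 1 ≤ m) : thr m = 2 / 3 - 2 / (9 * (m : ℝ) - 6) := by
  have h1 : (1 : ℝ) ≤ m := by exact_mod_cast hm
  have h2 : (3 * (m : ℝ) - 2) ≠ 0 := by
    have : (0 : ℝ) < 3 * (m : ℝ) - 2 := by linarith
    exact this.ne'
  have h3 : (9 * (m : ℝ) - 6) ≠ 0 := by
    have : (0 : ℝ) < 9 * (m : ℝ) - 6 := by linarith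
    exact this.ne'
  unfold thr
  rw [div_sub_div _ _ (by norm_num) h3, div_eq_div_iff h2 (mul_ne_zero (by norm_num) h3)]
  ring

section

variable {W : Type*} [Fintype W]

/-- upper bound from an ordering -/
theorem upper_ordering (H : SimpleGraph W) {d m : ℕ} {f : W → ℕ} (hf : IsOrdering H d f)
    (h4 : 4 ≤ m) (hd : 2 * d ≤ m) (hm : extIndex H ≤ m) : deltaCyc H ≤ thr m :=
  upper_extIndex h4 (admissible_of_ordering (by omega) (extIndex_le_iff.1 hm) hf hd)

/-- bounds for all graphs with at least eleven vertices -/
theorem all_graphs (H : SimpleGraph W) (hn : 11 ≤ Fintype.card W) :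
    2 / (9 * (Fintype.card W : ℝ) - 15) ≤ 2 / 3 - deltaCyc H ∧
      2 / 3 - deltaCyc H ≤ 2 / (3 * (Fintype.card W : ℝ) - 9) := by
  have hn' : (11 : ℝ) ≤ Fintype.card W := by exact_mod_cast hn
  have hm := card_le_extIndex H
  have hm' : (Fintype.card W : ℝ) ≤ 3 * extIndex H + 1 := by exact_mod_cast hm
  constructor
  · obtain ⟨w⟩ : Nonempty W := Fintype.card_pos_iff.1 (by omega)
    have hα : 1 ≤ H.indepNum := by
      have := IsIndepSet.card_le_indepNum (G := H) (t := {w}) (by
        intro x hx y hy hxy
        rw [coe_singleton, Set.mem_singleton_iff] at hx hy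
        exact absurd (hx.trans hy.symm) hxy)
      simpa using this
    have h1 := upper_general H (m := Fintype.card W - 1) (by omega) (by omega) (by omega)
    have h2 : deltaCyc H ≤ thr (Fintype.card W - 1) := h1
    rw [thr_eq (by omega), Nat.cast_sub (by omega)] at h2
    have h3 : (9 * ((Fintype.card W : ℝ) - ((1 : ℕ) : ℝ)) - 6) =
        9 * (Fintype.card W : ℝ) - 15 := by
      push_cast
      ring
    rw [h3] at h2
    linarith
  · have h1 : thr (extIndex H) ≤ deltaCyc H := lower_extIndex (by omega)
    rw [thr_eq (by omega)] at h1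
    have h2 : 2 / (9 * (extIndex H : ℝ) - 6) ≤ 2 / (3 * (Fintype.card W : ℝ) - 9) := by
      apply div_le_div_of_nonneg_left (by norm_num)
      · linarith
      · linarith
    linarith

/-- maximum degree gives an ordering -/
lemma ordering_of_degree (H : SimpleGraph W) [DecidableRel H.Adj] {d : ℕ}
    (hd : ∀ v, H.degree v ≤ d) : ∃ f, IsOrdering H d f := by
  classical
  refine ⟨fun v => (Fintype.equivFin W v : ℕ),
    fun a b h => (Fintype.equivFin W).injective (Fin.ext h), fun v => ?_⟩
  refine le_trans (Finset.card_le_card ?_) (hd v)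
  intro w hw
  simp only [mem_filter, mem_univ, true_and] at hw
  rw [mem_neighborFinset]
  exact hw.2.symm

/-- nonadjacent vertices with many common neighbours -/
lemma noStableCutset_of_common (H : SimpleGraph W)
    (h : ∀ u v, u ≠ v → ¬ H.Adj u v → ∃ S : Finset W, H.indepNum < S.card ∧
      ∀ w ∈ S, H.Adj u w ∧ H.Adj v w) : NoStableCutset H := by
  classical
  intro J hJ u v
  by_cases huv : u = v
  · rw [huv]
  · by_cases hadj : H.Adj u v
    · have : (H.induce Jᶜ).Adj u v := hadj
      exact this.reachable
    · obtain ⟨S, hS1, hS2⟩ := h u.1 v.1 (fun h => huv (Subtype.ext h)) hadj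
      have hJc : (univ.filter fun x => x ∈ J).card ≤ H.indepNum := by
        apply IsIndepSet.card_le_indepNum
        have : ((univ.filter fun x => x ∈ J : Finset W) : Set W) = J := by
          ext x
          simp
        rw [this]
        exact hJ
      obtain ⟨x, hx, hx'⟩ := Finset.exists_mem_notMem_of_card_lt_card (lt_of_le_of_lt hJc hS1)
      have hxJ : x ∉ J := by
        simpa using hx'
      obtain ⟨h1, h2⟩ := hS2 x hx
      have h3 : (H.induce Jᶜ).Adj u ⟨x, hxJ⟩ := h1
      have h4 : (H.induce Jᶜ).Adj v ⟨x, hxJ⟩ := h2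
      exact h3.reachable.trans h4.symm.reachable

end

/-- complete equipartite graphs with at least three parts have no stable cutset -/
lemma noStableCutset_equipartite {r t : ℕ} (hr : 3 ≤ r) :
    NoStableCutset (completeEquipartiteGraph r t) := by
  classical
  intro J hJ u v
  by_cases huv : u.1.1 = v.1.1
  · -- choose a part which is not met by `J` and does not contain `u`
    have hthird : ∀ i j : Fin r, ∃ k : Fin r, k ≠ i ∧ k ≠ j := by
      intro i j
      by_contra hcon
      push Not at hcon
      have h1 : (univ : Finset (Fin r)) ⊆ {i, j} := by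
        intro k _
        rw [mem_insert, mem_singleton]
        by_cases hk : k = i
        · exact Or.inl hk
        · exact Or.inr (hcon k hk)
      have h2 := Finset.card_le_card h1
      rw [card_univ, Fintype.card_fin] at h2
      have h3 : ({i, j} : Finset (Fin r)).card ≤ 2 := Finset.card_le_two
      omega
    obtain ⟨k, hk1, hk2⟩ : ∃ k : Fin r, k ≠ u.1.1 ∧ ∀ x ∈ J, x.1 ≠ k := by
      by_cases hne : ∃ x, x ∈ J
      · obtain ⟨x, hx⟩ := hne
        obtain ⟨k, hk1, hk2⟩ := hthird u.1.1 x.1
        refine ⟨k, hk1, fun y hy hyk => ?_⟩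
        have hxy : x ≠ y := by
          rintro rfl
          exact hk2 hyk.symm
        have this : ¬ (completeEquipartiteGraph r t).Adj x y := hJ hx hy hxy
        rw [completeEquipartiteGraph_adj, not_not] at this
        exact hk2 (hyk.symm.trans this.symm)
      · obtain ⟨k, hk1, -⟩ := hthird u.1.1 u.1.1
        exact ⟨k, hk1, fun y hy => absurd ⟨y, hy⟩ hne⟩
    have hz : (k, u.1.2) ∉ J := fun h => hk2 _ h rfl
    have h3 : ((completeEquipartiteGraph r t).induce Jᶜ).Adj u ⟨(k, u.1.2), hz⟩ := by
      change (completeEquipartiteGraph r t).Adj u.1 (k, u.1.2)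
      rw [completeEquipartiteGraph_adj]
      exact hk1.symm
    have h4 : ((completeEquipartiteGraph r t).induce Jᶜ).Adj v ⟨(k, u.1.2), hz⟩ := by
      change (completeEquipartiteGraph r t).Adj v.1 (k, u.1.2)
      rw [completeEquipartiteGraph_adj, ← huv]
      exact hk1.symm
    exact h3.reachable.trans h4.symm.reachable
  · have : ((completeEquipartiteGraph r t).induce Jᶜ).Adj u v := by
      change (completeEquipartiteGraph r t).Adj u.1 v.1
      rw [completeEquipartiteGraph_adj]
      exact huv
    exact this.reachable

/-- the independence number of a complete equipartite graph -/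
lemma indepNum_equipartite {r t : ℕ} (hr : 1 ≤ r) :
    (completeEquipartiteGraph r t).indepNum = t := by
  classical
  refine le_antisymm ?_ ?_
  · obtain ⟨S, hS⟩ := (completeEquipartiteGraph r t).exists_isNIndepSet_indepNum
    rw [← hS.card_eq]
    have h1 : S.card ≤ (univ : Finset (Fin t)).card := by
      refine Finset.card_le_card_of_injOn (fun x => x.2) (fun _ _ => by simp) ?_
      intro x hx y hy hxy
      by_contra hne
      have this : ¬ (completeEquipartiteGraph r t).Adj x y := hS.isIndepSet hx hy hne
      rw [completeEquipartiteGraph_adj, not_not] at this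
      exact hne (Prod.ext this hxy)
    rwa [card_univ, Fintype.card_fin] at h1
  · have h1 := IsIndepSet.card_le_indepNum (G := completeEquipartiteGraph r t)
      (t := (univ : Finset (Fin t)).map ⟨fun a => ((⟨0, by omega⟩ : Fin r), a),
        fun a b h => (Prod.ext_iff.1 h).2⟩) (by
        intro x hx y hy _
        simp only [coe_map, Set.mem_image] at hx hy
        obtain ⟨a, -, rfl⟩ := hx
        obtain ⟨b, -, rfl⟩ := hy
        rw [completeEquipartiteGraph_adj, not_not]
        rfl)
    rwa [card_map, card_univ, Fintype.card_fin] at h1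

/-- the threshold of complete equipartite graphs with at least three parts -/
theorem exact_equipartite {r t : ℕ} (hr : 3 ≤ r) (h4 : 4 ≤ (r - 1) * t) :
    deltaCyc (completeEquipartiteGraph r t) = thr ((r - 1) * t) := by
  have h1 := extIndex_of_noStableCutset (noStableCutset_equipartite (t := t) hr)
  rw [indepNum_equipartite (by omega), Fintype.card_prod, Fintype.card_fin, Fintype.card_fin] at h1
  obtain ⟨u, rfl⟩ : ∃ u, r = u + 3 := ⟨r - 3, by omega⟩
  have h2 : (u + 3 - 1) * t = (u + 3) * t - t := by
    have : (u + 3) * t = (u + 2) * t + t := by ring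
    have h3 : u + 3 - 1 = u + 2 := by omega
    rw [h3]
    omega
  have h3 : max ((u + 3) * t - t) ((u + 3) * t / 2) = (u + 3 - 1) * t := by
    rw [h2]
    apply max_eq_left
    have : (u + 3) * t = u * t + 3 * t := by ring
    omega
  rw [h3] at h1
  rw [← h1] at h4 ⊢
  exact exact_dense (noStableCutset_equipartite hr) h4

end Pool.Agent.H54.PD
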