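import Pool.Agent.H54.PD.Core

/-!
Group-valued functions on the edges of a dense graph, flat on 4-cycles.
-/

namespace Pool.Agent.H54.PD

open Finset

section flat

variable {V : Type*} [Fintype V] [DecidableEq V] {G : SimpleGraph V} [DecidableRel G.Adj] {δ : ℕ}
variable {Γ : Type*} [Group Γ]

theorem flat_dichotomy (hδ : ∀ v, δ ≤ G.degree v) (h5 : 3 * Fintype.card V < 5 * δ)
    (g : V → V → Γ) (o : V)
    (hinv : ∀ u v, G.Adj u v → g v u = (g u v)⁻¹)
    (hflat : ∀ u w w' v, G.Adj u w → G.Adj w v → G.Adj u w' → G.Adj w' v →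
      g u w * g w v = g u w' * g w' v)
    (ho : ∀ w x, G.Adj o w → G.Adj w x → g o w * g w x = 1) :
    (∃ γ : Γ, ∀ u v, G.Adj u v → g u v = γ ∨ g u v = γ⁻¹) ∨
    ∃ τ : V → Fin 3, Function.Surjective τ ∧
      ∃ i j k : Fin 3, (∀ l, l = i ∨ l = j ∨ l = k) ∧ i ≠ j ∧ i ≠ k ∧ j ≠ k ∧
      ∀ p q, G.Adj p q → ¬ (τ p = k ∧ τ q = k) ∧ ¬ (τ p = i ∧ τ q = j) := by
  classical
  choose cn hcn1 hcn2 using common hδ h5
  let h : V → V → Γ := fun u v => g u (cn u v) * g (cn u v) v
  have hh : ∀ u w v, G.Adj u w → G.Adj w v → g u w * g w v = h u v := fun u w v h1 h2 =>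
    hflat u w (cn u v) v h1 h2 (hcn1 u v) (hcn2 u v)
  have hho : ∀ x, h o x = 1 := fun x => ho _ _ (hcn1 o x) (hcn2 o x)
  have hhs : ∀ u v, h v u = (h u v)⁻¹ := by
    intro u v
    rw [← hh v (cn u v) u (hcn2 u v).symm (hcn1 u v).symm]
    change _ = (g u (cn u v) * g (cn u v) v)⁻¹
    rw [hinv _ _ (hcn1 u v), hinv _ _ (hcn2 u v), mul_inv_rev]
  have hhr : ∀ u, h u u = 1 := by
    intro u
    change g u (cn u u) * g (cn u u) u = 1
    rw [hinv _ _ (hcn1 u u), mul_inv_cancel]
  -- trivial triples
  let T : V → V → V → Prop := fun a b c => h a b * h b c = h a c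
  have T1 : ∀ a b c, T a b c → T b a c := by
    intro a b c h1
    change h b a * h a c = h b c
    have h1 : h a b * h b c = h a c := h1
    rw [← h1, hhs a b, inv_mul_cancel_left]
  have T2 : ∀ a b c, T a b c → T a c b := by
    intro a b c h1
    change h a c * h c b = h a b
    have h1 : h a b * h b c = h a c := h1
    rw [← h1, hhs b c, mul_inv_cancel_right]
  have T3 : ∀ a b c, T a b c → T c a b := fun a b c h1 => T1 _ _ _ (T2 _ _ _ h1)
  have T4 : ∀ a b c, T a b c → T b c a := fun a b c h1 => T2 _ _ _ (T1 _ _ _ h1)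
  have T5 : ∀ a b c, T a b c → T c b a := fun a b c h1 => T4 _ _ _ (T2 _ _ _ h1)
  have E0 : ∀ a b c, ¬ T a b c → ∀ p, ¬ (G.Adj a p ∧ G.Adj b p ∧ G.Adj c p) := by
    rintro a b c hT p ⟨ha, hb, hc⟩
    apply hT
    change h a b * h b c = h a c
    rw [← hh a p b ha hb.symm, ← hh b p c hb hc.symm, ← hh a p c ha hc.symm, hinv _ _ hb]
    group
  have E1 : ∀ a b c x, ¬ T a b c → ¬ T a b x ∨ ¬ T b c x ∨ ¬ T a c x := by
    intro a b c x hT
    by_contra hcon
    push Not at hcon
    obtain ⟨h1, h2, h3⟩ := hcon
    have h1 : h a b * h b x = h a x := h1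
    have h2 : h b c * h c x = h b x := h2
    have h3 : h a c * h c x = h a x := h3
    apply hT
    change h a b * h b c = h a c
    have h4 : h a c * h c x = (h a b * h b c) * h c x := by
      rw [h3, ← h1, ← h2]
      exact (mul_assoc _ _ _).symm
    exact (mul_right_cancel h4).symm
  have Ex : ∀ a b c x, ¬ T a b c → ¬ T b c x → T a c x := by
    intro a b c x h1 h2
    by_contra h3
    exact excl hδ h5 (E0 _ _ _ h1) (E0 _ _ _ h2) (E0 _ _ _ h3)
  -- the exchange lemma
  have Pl : ∀ a b c a' b', ¬ T a b c → ¬ T a' b c → ¬ T a b' c → ¬ T a' b' c := by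
    intro a b c a' b' h1 h2 h3 h4
    -- a, a' : T a c a' ; b, b' : T b c b'
    have h6 : T a c a' := Ex a b c a' h1 (fun h => h2 (T3 _ _ _ h))
    have h7 : T b c b' := Ex b a c b' (fun h => h1 (T1 _ _ _ h)) (fun h => h3 (T2 _ _ _ h))
    have h8 : ¬ T a b' a' := by
      rcases E1 a b' c a' h3 with h | h | h
      · exact h
      · exact absurd (T4 _ _ _ h4) h
      · exact absurd h6 h
    have h9 : ¬ T a' b b' := by
      rcases E1 a' b c b' h2 with h | h | h
      · exact h
      · exact absurd h7 h
      · exact absurd (T2 _ _ _ h4) h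
    exact penta hδ h5 (E0 _ _ _ h1) (E0 _ _ _ h2) (E0 _ _ _ h3)
      (E0 _ _ _ (fun h => h8 (T2 _ _ _ h))) (E0 _ _ _ h9)
  by_cases hall : ∀ x y, h x y = 1
  · -- everything trivial
    left
    obtain ⟨w, hw, -⟩ := common hδ h5 o o
    refine ⟨g o w, ?_⟩
    have hconst : ∀ u w v v', G.Adj u w → G.Adj v v' → g u w = g v v' := by
      have hc1 : ∀ u w w', G.Adj u w → G.Adj u w' → g u w = g u w' := by
        intro u w w' h1 h2
        have h3 := hh w u w' h1.symm h2
        rw [hall, hinv _ _ h1] at h3
        exact (inv_mul_eq_one.1 h3)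
      intro u w v v' h1 h2
      obtain ⟨z, hz1, hz2⟩ := common hδ h5 u v
      have h3 := hh u z v hz1 hz2
      rw [hall] at h3
      have h4 : g u z = g v z := by
        rw [hinv _ _ hz2.symm] at h3
        exact mul_inv_eq_one.1 h3
      rw [hc1 u w z h1 hz1, h4, hc1 v z v' hz2.symm h2]
    intro u v huv
    exact Or.inl (hconst u v o w huv hw)
  · push Not at hall
    obtain ⟨b, c, hbc⟩ := hall
    have hTo : ∀ x y, T o x y ↔ h x y = 1 := by
      intro x y
      change h o x * h x y = h o y ↔ _
      rw [hho, hho, one_mul]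
    have hobc : ¬ T o b c := fun h => hbc ((hTo _ _).1 h)
    -- the three classes
    let cls : V → Fin 3 := fun x => if T b c x then (if T o c x then 2 else 1) else 0
    have hcls0 : ∀ x, cls x = 0 ↔ ¬ T b c x := by
      intro x
      change (if T b c x then (if T o c x then (2 : Fin 3) else 1) else 0) = 0 ↔ _
      by_cases h1 : T b c x
      · by_cases h2 : T o c x <;> simp [h1, h2]
      · simp [h1]
    have hcls1 : ∀ x, cls x = 1 ↔ ¬ T o c x := by
      intro x
      change (if T b c x then (if T o c x then (2 : Fin 3) else 1) else 0) = 1 ↔ _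
      by_cases h1 : T b c x
      · by_cases h2 : T o c x <;> simp [h1, h2]
      · have h2 : T o c x := Ex o b c x hobc h1
        simp [h1, h2]
    have hcls2 : ∀ x, cls x = 2 ↔ ¬ T o b x := by
      intro x
      change (if T b c x then (if T o c x then (2 : Fin 3) else 1) else 0) = 2 ↔ _
      by_cases h1 : T b c x
      · by_cases h2 : T o c x
        · have h3 : ¬ T o b x := by
            rcases E1 o b c x hobc with h | h | h
            · exact h
            · exact absurd h1 h
            · exact absurd h2 h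
          simp [h1, h2, h3]
        · have h3 : T o b x := T1 _ _ _ (Ex b c o x (fun h => hobc (T3 _ _ _ h))
            (fun h => h2 (T1 _ _ _ h)))
          simp [h1, h2, h3]
      · have h3 : T o b x := Ex o c b x (fun h => hobc (T2 _ _ _ h)) (fun h => h1 (T1 _ _ _ h))
        simp [h1, h3]
    have htr1 : ∀ x y, cls x = 0 → cls y = 1 → ¬ T x y c := by
      intro x y hx hy
      rw [hcls0] at hx
      rw [hcls1] at hy
      exact Pl o b c x y hobc (fun h => hx (T4 _ _ _ h)) (fun h => hy (T2 _ _ _ h))
    have htr2 : ∀ x y, cls x = 0 → cls y = 2 → ¬ T x b y := by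
      intro x y hx hy h
      rw [hcls0] at hx
      rw [hcls2] at hy
      exact Pl o c b x y (fun h => hobc (T2 _ _ _ h)) (fun h => hx (T5 _ _ _ h))
        (fun h => hy (T2 _ _ _ h)) (T2 _ _ _ h)
    have htr : ∀ x y z, cls x = 0 → cls y = 1 → cls z = 2 → ¬ T x y z := by
      intro x y z hx hy hz h
      have h1 := htr1 x y hx hy
      have h2 := htr2 x z hx hz
      rw [hcls0] at hx
      exact Pl b c x y z hx (fun h => h1 (T3 _ _ _ h)) (fun h => h2 (T3 _ _ _ h)) (T4 _ _ _ h)
    have hN : ∀ p, ∃ k, ∀ q, G.Adj p q → cls q ≠ k := by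
      intro p
      by_contra hcon
      push Not at hcon
      obtain ⟨x, hx1, hx⟩ := hcon 0
      obtain ⟨y, hy1, hy⟩ := hcon 1
      obtain ⟨z, hz1, hz⟩ := hcon 2
      exact E0 _ _ _ (htr x y z hx hy hz) p ⟨hx1.symm, hy1.symm, hz1.symm⟩
    have hclso : cls o = 0 := (hcls0 o).2 (fun h => hobc (T3 _ _ _ h))
    have hclsb : cls b = 1 := (hcls1 b).2 (fun h => hobc (T2 _ _ _ h))
    have hclsc : cls c = 2 := (hcls2 c).2 hobc
    have hsurj : Function.Surjective cls := by
      intro k
      fin_cases k
      · exact ⟨o, hclso⟩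
      · exact ⟨b, hclsb⟩
      · exact ⟨c, hclsc⟩
    rcases structure_cases hδ h5 cls hsurj hN with hid | hsw
    · left
      have k00 : ∀ x, cls x = 0 → ∀ y, h x y = 1 := by
        intro x hx y
        have hx' := (hcls0 x).1 hx
        rw [← hTo]
        have hyc : cls y = 0 ∨ cls y = 1 ∨ cls y = 2 := by
          generalize cls y = k
          revert k
          decide
        have hxob : T o x b := T2 _ _ _ (Ex o c b x (fun h => hobc (T2 _ _ _ h))
          (fun h => hx' (T1 _ _ _ h)))
        rcases hyc with hy | hy | hy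
        · have hy' := (hcls0 y).1 hy
          have hyob : T o y b := T2 _ _ _ (Ex o c b y (fun h => hobc (T2 _ _ _ h))
            (fun h => hy' (T1 _ _ _ h)))
          by_contra hcon
          rcases E1 o x y b hcon with h | h | h
          · exact h hxob
          · exact h (T2 _ _ _ (Ex x c b y (fun h => hx' (T5 _ _ _ h)) (fun h => hy' (T1 _ _ _ h))))
          · exact h hyob
        · have hy' := (hcls1 y).1 hy
          have hxyc := htr1 x y hx hy
          exact T2 _ _ _ (Ex o c y x hy' (fun h => hxyc (T5 _ _ _ h)))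
        · have hy' := (hcls2 y).1 hy
          have hxby := htr2 x y hx hy
          exact T2 _ _ _ (Ex o b y x hy' (fun h => hxby (T3 _ _ _ h)))
      have k11 : ∀ x y, cls x = 1 → cls y = 1 → h x y = 1 := by
        intro x y hx hy
        rw [hcls1] at hx hy
        rw [← hTo]
        exact T1 _ _ _ (Ex x c o y (fun h => hx (T5 _ _ _ h)) (fun h => hy (T1 _ _ _ h)))
      have k22 : ∀ x y, cls x = 2 → cls y = 2 → h x y = 1 := by
        intro x y hx hy
        rw [hcls2] at hx hy
        rw [← hTo]
        exact T1 _ _ _ (Ex x b o y (fun h => hx (T5 _ _ _ h)) (fun h => hy (T1 _ _ _ h)))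
      have k0' : ∀ y, cls y = 0 → ∀ x, h x y = 1 := by
        intro y hy x
        rw [hhs y x, k00 y hy x, inv_one]
      have c3 : ∀ x, cls x = 0 ∨ cls x = 1 ∨ cls x = 2 := by
        intro x
        generalize cls x = k
        revert k
        decide
      -- g w · is constant for w in class 1 or 2
      have hc1 : ∀ w u v, cls w ≠ 0 → G.Adj w u → G.Adj w v → g w u = g w v := by
        intro w u v hw h1 h2
        have h3 := hh u w v h1.symm h2
        rw [hinv _ _ h1] at h3
        have h4 : h u v = 1 := by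
          have hu := hid _ _ h1
          have hv := hid _ _ h2
          rcases c3 u with h5 | h5 | h5
          · exact k00 u h5 v
          · rcases c3 v with h6 | h6 | h6
            · exact k0' v h6 u
            · exact k11 u v h5 h6
            · exfalso
              rw [h5] at hu
              rw [h6] at hv
              rcases c3 w with h7 | h7 | h7
              · exact hw h7
              · exact hu h7
              · exact hv h7
          · rcases c3 v with h6 | h6 | h6
            · exact k0' v h6 u
            · exfalso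
              rw [h5] at hu
              rw [h6] at hv
              rcases c3 w with h7 | h7 | h7
              · exact hw h7
              · exact hv h7
              · exact hu h7
            · exact k22 u v h5 h6
        rw [h4] at h3
        exact inv_mul_eq_one.1 h3
      have hc2 : ∀ w w', cls w = cls w' → cls w ≠ 0 → ∀ u u', G.Adj w u → G.Adj w' u' →
          g w u = g w' u' := by
        intro w w' hww hw u u' h1 h2
        obtain ⟨z, hz1, hz2⟩ := common hδ h5 w w'
        have h3 := hh w z w' hz1 hz2
        have h4 : h w w' = 1 := by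
          rcases c3 w with h7 | h7 | h7
          · exact absurd h7 hw
          · exact k11 w w' h7 (hww ▸ h7)
          · exact k22 w w' h7 (hww ▸ h7)
        rw [h4, hinv _ _ hz2.symm] at h3
        rw [hc1 w u z hw h1 hz1, mul_inv_eq_one.1 h3]
        exact hc1 w' z u' (hww ▸ hw) hz2.symm h2
      -- an edge between the classes 1 and 2
      obtain ⟨p, q, hpq, hp, hq⟩ : ∃ p q, G.Adj p q ∧ cls p = 1 ∧ cls q = 2 := by
        obtain ⟨z, hz1, hz2⟩ := common hδ h5 b o
        refine ⟨b, z, hz1, hclsb, ?_⟩
        have h1 := hid _ _ hz1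
        have h2 := hid _ _ hz2
        rw [hclsb] at h1
        rw [hclso] at h2
        rcases c3 z with h7 | h7 | h7
        · exact absurd h7 h2
        · exact absurd h7.symm h1
        · exact h7
      refine ⟨g p q, ?_⟩
      have hg1 : ∀ w u, cls w = 1 → G.Adj w u → g w u = g p q := fun w u hw hwu =>
        hc2 w p (hw.trans hp.symm) (by rw [hw]; decide) u q hwu hpq
      have hg2 : ∀ w u, cls w = 2 → G.Adj w u → g w u = (g p q)⁻¹ := fun w u hw hwu => by
        rw [hc2 w q (hw.trans hq.symm) (by rw [hw]; decide) u p hwu hpq.symm, hinv _ _ hpq]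
      intro u v huv
      rcases c3 u with h7 | h7 | h7
      · rcases c3 v with h8 | h8 | h8
        · exact absurd (h7.trans h8.symm) (hid _ _ huv)
        · right
          rw [hinv _ _ huv.symm, hg1 v u h8 huv.symm]
        · left
          rw [hinv _ _ huv.symm, hg2 v u h8 huv.symm, inv_inv]
      · left
        exact hg1 u v h7 huv
      · right
        exact hg2 u v h7 huv
    · right
      exact ⟨cls, hsurj, hsw⟩

end flat

end Pool.Agent.H54.PD
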