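import Pool.Agent.H54.PD.Adm

/-!
# The index of a graph: the least `m` such that it is contained in `ext m`
-/

set_option autoImplicit false

namespace Pool.Agent.H54.PD

open SimpleGraph Finset

/-- The value `2 (m - 1) / (3 m - 2)`. -/
noncomputable def thr (m : ℕ) : ℝ := 2 * ((m : ℝ) - 1) / (3 * (m : ℝ) - 2)

/-- The least `m` such that `H` is (isomorphic to) a subgraph of `ext m`. -/
noncomputable def extIndex {W : Type*} (H : SimpleGraph W) : ℕ := sInf {m : ℕ | H ⊑ ext m}

/-- a combinatorial description of containment in `ext m` -/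
lemma contained_ext_iff {W : Type*} [Fintype W] [DecidableEq W] (H : SimpleGraph W) (m : ℕ) :
    H ⊑ ext m ↔ ∃ J L₁ L₂ : Finset W, (∀ v, v ∈ J ∨ v ∈ L₁ ∨ v ∈ L₂) ∧
      (∀ v ∈ J, ∀ w ∈ J, ¬ H.Adj v w) ∧ (∀ v ∈ L₁, ∀ w ∈ L₂, v ≠ w ∧ ¬ H.Adj v w) ∧
      J.card ≤ m + 1 ∧ L₁.card ≤ m ∧ L₂.card ≤ m := by
  classical
  constructor
  · rintro ⟨g⟩
    have hadj : ∀ {v w}, H.Adj v w → (ext m).Adj (g v) (g w) := fun h => g.toHom.map_rel h
    have hinj : Function.Injective g := g.injective
    refine ⟨univ.filter fun v => ∃ a, g v = Sum.inl a,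
      univ.filter fun v => ∃ a, g v = Sum.inr (true, a),
      univ.filter fun v => ∃ a, g v = Sum.inr (false, a), ?_, ?_, ?_, ?_, ?_, ?_⟩
    · intro v
      simp only [mem_filter, mem_univ, true_and]
      rcases h : g v with a | ⟨b, a⟩
      · exact Or.inl ⟨a, rfl⟩
      · rcases b with _ | _
        · exact Or.inr (Or.inr ⟨a, rfl⟩)
        · exact Or.inr (Or.inl ⟨a, rfl⟩)
    · intro v hv w hw h
      simp only [mem_filter, mem_univ, true_and] at hv hw
      obtain ⟨a, ha⟩ := hv
      obtain ⟨b, hb⟩ := hw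
      have := hadj h
      rw [ha, hb] at this
      exact ext_ll this
    · intro v hv w hw
      simp only [mem_filter, mem_univ, true_and] at hv hw
      obtain ⟨a, ha⟩ := hv
      obtain ⟨b, hb⟩ := hw
      refine ⟨?_, fun h => ?_⟩
      · rintro rfl
        rw [ha] at hb
        simp at hb
      · have := hadj h
        rw [ha, hb] at this
        exact absurd (ext_rr.1 this).1 (by simp)
    · have h1 : (univ.filter fun v => ∃ a, g v = Sum.inl a).card ≤
          ((univ : Finset (Fin (m + 1))).map ⟨Sum.inl (β := Bool × Fin m),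
            Sum.inl_injective⟩).card := by
        refine Finset.card_le_card_of_injOn (fun v => g v) ?_ (hinj.injOn)
        intro v hv
        simp only [coe_filter, mem_univ, true_and, Set.mem_ofPred_eq] at hv
        obtain ⟨a, ha⟩ := hv
        simp only [coe_map, Set.mem_image]
        exact ⟨a, by simp, ha.symm⟩
      rw [card_map, card_univ, Fintype.card_fin] at h1
      exact h1
    · have h1 : (univ.filter fun v => ∃ a, g v = Sum.inr (true, a)).card ≤
          ((univ : Finset (Fin m)).map ⟨fun a => (Sum.inr (true, a) :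
            Fin (m + 1) ⊕ (Bool × Fin m)), fun a b h => by simpa using h⟩).card := by
        refine Finset.card_le_card_of_injOn (fun v => g v) ?_ (hinj.injOn)
        intro v hv
        simp only [coe_filter, mem_univ, true_and, Set.mem_ofPred_eq] at hv
        obtain ⟨a, ha⟩ := hv
        simp only [coe_map, Set.mem_image]
        exact ⟨a, by simp, ha.symm⟩
      rw [card_map, card_univ, Fintype.card_fin] at h1
      exact h1
    · have h1 : (univ.filter fun v => ∃ a, g v = Sum.inr (false, a)).card ≤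
          ((univ : Finset (Fin m)).map ⟨fun a => (Sum.inr (false, a) :
            Fin (m + 1) ⊕ (Bool × Fin m)), fun a b h => by simpa using h⟩).card := by
        refine Finset.card_le_card_of_injOn (fun v => g v) ?_ (hinj.injOn)
        intro v hv
        simp only [coe_filter, mem_univ, true_and, Set.mem_ofPred_eq] at hv
        obtain ⟨a, ha⟩ := hv
        simp only [coe_map, Set.mem_image]
        exact ⟨a, by simp, ha.symm⟩
      rw [card_map, card_univ, Fintype.card_fin] at h1
      exact h1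
  · rintro ⟨J, L₁, L₂, hcov, hJ, hL, hJc, hL1c, hL2c⟩
    -- injections
    have hemb : ∀ (S : Finset W) (k : ℕ), S.card ≤ k → ∃ e : W → ℕ, (∀ v ∈ S, e v < k) ∧
        ∀ v ∈ S, ∀ w ∈ S, e v = e w → v = w := by
      intro S k hk
      refine ⟨fun v => if h : v ∈ S then (S.equivFin ⟨v, h⟩ : ℕ) else 0, ?_, ?_⟩
      · intro v hv
        simp only [dif_pos hv]
        exact lt_of_lt_of_le (Fin.is_lt _) hk
      · intro v hv w hw h
        simp only [dif_pos hv, dif_pos hw] at h
        have := S.equivFin.injective (Fin.ext h)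
        exact congrArg Subtype.val this
    obtain ⟨e0, he0, he0'⟩ := hemb J (m + 1) hJc
    obtain ⟨e1, he1, he1'⟩ := hemb L₁ m hL1c
    obtain ⟨e2, he2, he2'⟩ := hemb L₂ m hL2c
    let g : W → Fin (m + 1) ⊕ (Bool × Fin m) := fun v =>
      if h : v ∈ J then Sum.inl ⟨e0 v, he0 v h⟩ else
      if h1 : v ∈ L₁ then Sum.inr (true, ⟨e1 v, he1 v h1⟩) else
      if h2 : v ∈ L₂ then Sum.inr (false, ⟨e2 v, he2 v h2⟩) else Sum.inl 0
    have g0 : ∀ v (h : v ∈ J), g v = Sum.inl ⟨e0 v, he0 v h⟩ := fun v h => by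
      simp only [g, dif_pos h]
    have g1 : ∀ v (h : v ∉ J) (h1 : v ∈ L₁), g v = Sum.inr (true, ⟨e1 v, he1 v h1⟩) :=
      fun v h h1 => by simp only [g, dif_neg h, dif_pos h1]
    have g2 : ∀ v (h : v ∉ J) (h1 : v ∉ L₁) (h2 : v ∈ L₂),
        g v = Sum.inr (false, ⟨e2 v, he2 v h2⟩) :=
      fun v h h1 h2 => by simp only [g, dif_neg h, dif_neg h1, dif_pos h2]
    have hcase : ∀ v, v ∈ J ∨ (v ∉ J ∧ v ∈ L₁) ∨ (v ∉ J ∧ v ∉ L₁ ∧ v ∈ L₂) := by
      intro v
      by_cases h : v ∈ J
      · exact Or.inl h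
      · by_cases h1 : v ∈ L₁
        · exact Or.inr (Or.inl ⟨h, h1⟩)
        · rcases hcov v with h2 | h2 | h2
          · exact absurd h2 h
          · exact absurd h2 h1
          · exact Or.inr (Or.inr ⟨h, h1, h2⟩)
    refine ⟨⟨⟨g, ?_⟩, ?_⟩⟩
    · intro v w hvw
      rcases hcase v with h | ⟨h, h1⟩ | ⟨h, h1, h2⟩
      · rcases hcase w with k | ⟨k, k1⟩ | ⟨k, k1, k2⟩
        · exact absurd hvw (hJ v h w k)
        · rw [g0 v h, g1 w k k1]
          exact ext_lr _ _
        · rw [g0 v h, g2 w k k1 k2]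
          exact ext_lr _ _
      · rcases hcase w with k | ⟨k, k1⟩ | ⟨k, k1, k2⟩
        · rw [g0 w k, g1 v h h1]
          exact ext_rl _ _
        · rw [g1 v h h1, g1 w k k1]
          refine ext_rr.2 ⟨rfl, fun he => hvw.ne ?_⟩
          exact he1' v h1 w k1 (congrArg Fin.val he)
        · exact absurd hvw (hL v h1 w k2).2
      · rcases hcase w with k | ⟨k, k1⟩ | ⟨k, k1, k2⟩
        · rw [g0 w k, g2 v h h1 h2]
          exact ext_rl _ _
        · exact absurd hvw.symm (hL w k1 v h2).2
        · rw [g2 v h h1 h2, g2 w k k1 k2]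
          refine ext_rr.2 ⟨rfl, fun he => hvw.ne ?_⟩
          exact he2' v h2 w k2 (congrArg Fin.val he)
    · intro v w hvw
      change g v = g w at hvw
      rcases hcase v with h | ⟨h, h1⟩ | ⟨h, h1, h2⟩
      · rcases hcase w with k | ⟨k, k1⟩ | ⟨k, k1, k2⟩
        · rw [g0 v h, g0 w k] at hvw
          simp only [Sum.inl.injEq, Fin.mk.injEq] at hvw
          exact he0' v h w k hvw
        · rw [g0 v h, g1 w k k1] at hvw
          simp at hvw
        · rw [g0 v h, g2 w k k1 k2] at hvw
          simp at hvw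
      · rcases hcase w with k | ⟨k, k1⟩ | ⟨k, k1, k2⟩
        · rw [g0 w k, g1 v h h1] at hvw
          simp at hvw
        · rw [g1 v h h1, g1 w k k1] at hvw
          simp only [Sum.inr.injEq, Prod.mk.injEq, true_and, Fin.mk.injEq] at hvw
          exact he1' v h1 w k1 hvw
        · rw [g1 v h h1, g2 w k k1 k2] at hvw
          simp at hvw
      · rcases hcase w with k | ⟨k, k1⟩ | ⟨k, k1, k2⟩
        · rw [g0 w k, g2 v h h1 h2] at hvw
          simp at hvw
        · rw [g1 w k k1, g2 v h h1 h2] at hvw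
          simp at hvw
        · rw [g2 v h h1 h2, g2 w k k1 k2] at hvw
          simp only [Sum.inr.injEq, Prod.mk.injEq, true_and, Fin.mk.injEq] at hvw
          exact he2' v h2 w k2 hvw

section idx

variable {W : Type*} [Fintype W] {H : SimpleGraph W}

lemma contained_mono {m m' : ℕ} (h : m ≤ m') (hH : H ⊑ ext m) : H ⊑ ext m' := by
  classical
  rw [contained_ext_iff] at hH ⊢
  obtain ⟨J, L₁, L₂, h1, h2, h3, h4, h5, h6⟩ := hH
  exact ⟨J, L₁, L₂, h1, h2, h3, by omega, by omega, by omega⟩

lemma contained_card (H : SimpleGraph W) : H ⊑ ext (Fintype.card W) := by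
  classical
  rw [contained_ext_iff]
  exact ⟨∅, univ, ∅, by simp, by simp, by simp, by simp, by simp, by simp⟩

lemma contained_extIndex (H : SimpleGraph W) : H ⊑ ext (extIndex H) :=
  Nat.sInf_mem (s := {m : ℕ | H ⊑ ext m}) ⟨_, contained_card H⟩

lemma extIndex_le_iff {m : ℕ} : extIndex H ≤ m ↔ H ⊑ ext m :=
  ⟨fun h => contained_mono h (contained_extIndex H), fun h => Nat.sInf_le h⟩

lemma lt_extIndex_iff {m : ℕ} : m < extIndex H ↔ H.Free (ext m) := by
  rw [← not_le, extIndex_le_iff]

lemma card_le_extIndex (H : SimpleGraph W) : Fintype.card W ≤ 3 * extIndex H + 1 := by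
  obtain ⟨g⟩ := contained_extIndex H
  have h := Fintype.card_le_of_injective g g.injective
  rw [Fintype.card_sum, Fintype.card_prod, Fintype.card_bool, Fintype.card_fin,
    Fintype.card_fin] at h
  omega

/-- the general lower bound -/
theorem lower_extIndex (h3 : 3 ≤ extIndex H) :
    2 * ((extIndex H : ℝ) - 1) / (3 * (extIndex H : ℝ) - 2) ≤ deltaCyc H := by
  obtain ⟨s, hs⟩ : ∃ s, extIndex H = s + 1 := ⟨extIndex H - 1, by omega⟩
  have h1 : H.Free (ext s) := lt_extIndex_iff.1 (by omega)
  have h2 := le_deltaCyc H (m := s) (by omega) h1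
  rw [hs]
  push_cast
  convert h2 using 2 <;> ring

/-- the general upper bound -/
theorem upper_extIndex {m : ℕ} (h4 : 4 ≤ m) (hadm : Admissible H (m - 1)) :
    deltaCyc H ≤ 2 * ((m : ℝ) - 1) / (3 * (m : ℝ) - 2) := by
  obtain ⟨s, rfl⟩ : ∃ s, m = s + 1 := ⟨m - 1, by omega⟩
  rw [Nat.add_sub_cancel] at hadm
  have h2 := deltaCyc_le_of_admissible (s := s) (by omega) hadm
  push_cast
  convert h2 using 2 <;> ring

/-- admissible from a stable set -/
theorem admissible_of_stable {s : ℕ} (J : Finset W) (hJ : ∀ v ∈ J, ∀ w ∈ J, ¬ H.Adj v w)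
    (h1 : Fintype.card W ≤ 2 * s + 3) (h2 : Fintype.card W ≤ J.card + (s + 1)) :
    Admissible H s := by
  classical
  obtain ⟨J', hJ', hc⟩ := Finset.exists_subset_card_eq (show min J.card (s + 2) ≤ J.card by omega)
  have hJle : J.card ≤ Fintype.card W := Finset.card_le_univ J
  let e := Fintype.equivFin W
  have hout : (univ.filter fun v => v ∉ J').card + J'.card = Fintype.card W := by
    have : (univ.filter fun v => v ∉ J') = J'ᶜ := by
      ext v
      simp
    rw [this, add_comm]
    exact Finset.card_add_card_compl J'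
  let cls : W → Fin 3 := fun v => if v ∈ J' then 2 else 0
  have hc2 : ∀ v, cls v = 2 ↔ v ∈ J' := by
    intro v
    by_cases h : v ∈ J' <;> simp [cls, h]
  have hc0 : ∀ v, cls v = 0 ↔ v ∉ J' := by
    intro v
    by_cases h : v ∈ J' <;> simp [cls, h]
  have hc1 : ∀ v, cls v ≠ 1 := by
    intro v
    by_cases h : v ∈ J' <;> simp [cls, h]
  let f : W → ℕ := fun v => if v ∈ J' then Fintype.card W + (e v : ℕ) else (e v : ℕ)
  have hf1 : ∀ v, v ∈ J' → f v = Fintype.card W + (e v : ℕ) := fun v h => by simp [f, h]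
  have hf2 : ∀ v, v ∉ J' → f v = (e v : ℕ) := fun v h => by simp [f, h]
  have hbk1 : ∀ v, bk H f cls v 1 = 0 := by
    intro v
    unfold bk
    rw [Finset.card_eq_zero, Finset.filter_eq_empty_iff]
    rintro w - ⟨_, _, h⟩
    exact hc1 w h
  refine ⟨cls, f, ?_, ?_, ?_, ?_, ?_, ?_, ?_⟩
  · intro v w h
    by_cases hv : v ∈ J' <;> by_cases hw : w ∈ J'
    · rw [hf1 v hv, hf1 w hw] at h
      exact e.injective (Fin.ext (by omega))
    · rw [hf1 v hv, hf2 w hw] at h
      have := (e w).is_lt
      omega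
    · rw [hf2 v hv, hf1 w hw] at h
      have := (e v).is_lt
      omega
    · rw [hf2 v hv, hf2 w hw] at h
      exact e.injective (Fin.ext h)
  · rintro v w hadj ⟨h3, h4⟩
    exact hJ v (hJ' ((hc2 v).1 h3)) w (hJ' ((hc2 w).1 h4)) hadj
  · rintro v w - ⟨-, h⟩
    exact hc1 w h
  · simp only [hc2]
    rw [Finset.filter_mem_eq_inter, Finset.univ_inter]
    omega
  · simp only [hc0]
    omega
  · have : (univ.filter fun v => cls v = 1) = ∅ := by
      rw [Finset.filter_eq_empty_iff]
      intro v _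
      exact hc1 v
    rw [this, card_empty]
    omega
  · intro v
    refine ⟨fun hv => ?_, fun hv => absurd hv (hc1 v), fun hv => ⟨?_, ?_⟩⟩
    · have : bk H f cls v 2 = 0 := by
        unfold bk
        rw [Finset.card_eq_zero, Finset.filter_eq_empty_iff]
        rintro w - ⟨h3, _, h4⟩
        rw [hf2 v ((hc0 v).1 hv), hf1 w ((hc2 w).1 h4)] at h3
        have := (e v).is_lt
        omega
      omega
    · rw [hbk1]
      omega
    · rw [hbk1, Nat.add_zero]
      have : bk H f cls v 0 ≤ (univ.filter fun v => v ∉ J').card := by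
        refine Finset.card_le_card ?_
        intro w hw
        rw [mem_filter] at hw ⊢
        exact ⟨mem_univ _, (hc0 w).1 hw.2.2.2⟩
      omega

open Classical in
/-- `f` is an ordering of the vertices in which every vertex has at most `d` earlier
neighbours -/
def IsOrdering (H : SimpleGraph W) (d : ℕ) (f : W → ℕ) : Prop :=
  Function.Injective f ∧ ∀ v, (univ.filter fun w => f w < f v ∧ H.Adj w v).card ≤ d

/-- admissible from an ordering with few earlier neighbours -/
theorem admissible_of_ordering {m d : ℕ} (h1 : 1 ≤ m) (hH : H ⊑ ext m) {f : W → ℕ}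
    (hf : IsOrdering H d f) (hd : 2 * d ≤ m) : Admissible H (m - 1) := by
  classical
  obtain ⟨s, rfl⟩ : ∃ s, m = s + 1 := ⟨m - 1, by omega⟩
  rw [Nat.add_sub_cancel]
  rw [contained_ext_iff] at hH
  obtain ⟨J, L₁, L₂, hcov, hJ, hL, hJc, hL1c, hL2c⟩ := hH
  let cls : W → Fin 3 := fun v => if v ∈ J then 2 else if v ∈ L₁ then 0 else 1
  have hc2 : ∀ v, cls v = 2 → v ∈ J := by
    intro v
    by_cases h : v ∈ J
    · exact fun _ => h
    · by_cases h1 : v ∈ L₁ <;> simp [cls, h, h1]
  have hc0 : ∀ v, cls v = 0 → v ∈ L₁ := by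
    intro v
    by_cases h : v ∈ J
    · simp [cls, h]
    · by_cases h1 : v ∈ L₁ <;> simp [cls, h, h1]
  have hc1 : ∀ v, cls v = 1 → v ∈ L₂ := by
    intro v
    by_cases h : v ∈ J
    · simp [cls, h]
    · by_cases h1 : v ∈ L₁
      · simp [cls, h, h1]
      · intro _
        rcases hcov v with h2 | h2 | h2
        · exact absurd h2 h
        · exact absurd h2 h1
        · exact h2
  have hbk : ∀ v c, bk H f cls v c ≤ d := by
    intro v c
    refine le_trans (Finset.card_le_card ?_) (hf.2 v)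
    intro w hw
    rw [mem_filter] at hw ⊢
    exact ⟨mem_univ _, hw.2.1, hw.2.2.1⟩
  have hbk2 : ∀ v, bk H f cls v 0 + bk H f cls v 1 ≤ d := by
    intro v
    refine le_trans ?_ (hf.2 v)
    unfold bk
    rw [← Finset.card_union_of_disjoint]
    · refine Finset.card_le_card ?_
      intro w hw
      rw [mem_union, mem_filter, mem_filter] at hw
      rw [mem_filter]
      rcases hw with hw | hw
      · exact ⟨mem_univ _, hw.2.1, hw.2.2.1⟩
      · exact ⟨mem_univ _, hw.2.1, hw.2.2.1⟩
    · rw [Finset.disjoint_left]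
      intro w hw hw'
      rw [mem_filter] at hw hw'
      have h3 := hw.2.2.2
      rw [hw'.2.2.2] at h3
      exact absurd h3 (by decide)
  refine ⟨cls, f, hf.1, ?_, ?_, ?_, ?_, ?_, ?_⟩
  · rintro v w hadj ⟨h3, h4⟩
    exact hJ v (hc2 v h3) w (hc2 w h4) hadj
  · rintro v w hadj ⟨h3, h4⟩
    exact (hL v (hc0 v h3) w (hc1 w h4)).2 hadj
  · refine (Finset.card_le_card ?_).trans hJc
    intro v hv
    rw [mem_filter] at hv
    exact hc2 v hv.2
  · refine (Finset.card_le_card ?_).trans hL1c
    intro v hv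
    rw [mem_filter] at hv
    exact hc0 v hv.2
  · refine (Finset.card_le_card ?_).trans hL2c
    intro v hv
    rw [mem_filter] at hv
    exact hc1 v hv.2
  · intro v
    have h3 := hbk v 1
    have h4 := hbk v 2
    have h5 := hbk2 v
    exact ⟨fun _ => by omega, fun _ => ⟨by omega, by omega⟩, fun _ => ⟨by omega, by omega⟩⟩

end idx

end Pool.Agent.H54.PD
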