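import Pool.Agent.H54.PD.Almost

/-!
# Almost all graphs have no stable cutset: the limit
-/

set_option autoImplicit false

namespace Pool.Agent.H54.PD

open SimpleGraph Finset Filter Topology

lemma succ_le_two_pow (q : ℕ) (hq : 10 ≤ q) : 64 * (q + 1) ≤ 2 ^ q := by
  induction q, hq using Nat.le_induction with
  | base => norm_num
  | succ q hq ih =>
    rw [pow_succ]
    omega

/-- numerical estimate -/
lemma numeric {r n : ℕ} (hr : 640 ≤ r) (h1 : r * r ≤ n) (h2 : n < (r + 1) * (r + 1)) :
    (n.choose (2 * r + 3) : ℝ) * (1 / 2) ^ ((2 * r + 3).choose 2) +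
      (n + 1) ^ (2 * r + 3) * ((1 + (1 / 2) ^ (n / 4)) ^ n - 1) ≤ 2 * (1 / 2) ^ r := by
  have hrn : r ≤ n := by nlinarith
  -- first term
  have hA : (n.choose (2 * r + 3) : ℝ) * (1 / 2) ^ ((2 * r + 3).choose 2) ≤ (1 / 2) ^ r := by
    have h3 : 2 * n ≤ (2 * r + 3).choose 2 := by
      rw [Nat.choose_two_right, Nat.le_div_iff_mul_le (by norm_num)]
      have : 2 * r + 3 - 1 = 2 * r + 2 := by omega
      rw [this]
      nlinarith
    have h4 : (n.choose (2 * r + 3) : ℝ) ≤ 2 ^ n := by
      exact_mod_cast Nat.choose_le_two_pow n (2 * r + 3)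
    calc (n.choose (2 * r + 3) : ℝ) * (1 / 2) ^ ((2 * r + 3).choose 2)
        ≤ 2 ^ n * (1 / 2) ^ (2 * n) := by
          refine mul_le_mul h4 ?_ (by positivity) (by positivity)
          exact pow_le_pow_of_le_one (by norm_num) (by norm_num) h3
      _ = (1 / 2) ^ n := by
          rw [two_mul, pow_add, ← mul_assoc, ← mul_pow]
          norm_num
      _ ≤ (1 / 2) ^ r := pow_le_pow_of_le_one (by norm_num) (by norm_num) hrn
  -- second term
  set q := r / 64 with hq
  have hq1 : 64 * q ≤ r := Nat.mul_div_le r 64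
  have hq2 : r < 64 * (q + 1) := by omega
  have hq3 : 10 ≤ q := by omega
  have h5 : r + 1 ≤ 2 ^ q := by
    have := succ_le_two_pow q hq3
    omega
  have h6 : n + 1 ≤ 2 ^ (2 * q) := by
    have h7 : n + 1 ≤ (r + 1) * (r + 1) := h2
    refine h7.trans ?_
    rw [two_mul, pow_add]
    exact Nat.mul_le_mul h5 h5
  have h7 : (n + 1) ^ (2 * r + 4) ≤ 2 ^ (2 * q * (2 * r + 4)) := by
    rw [pow_mul]
    exact Nat.pow_le_pow_left h6 _
  -- exponent comparison
  have h8 : 2 * q * (2 * r + 4) + 1 + r ≤ n / 4 := by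
    rw [Nat.le_div_iff_mul_le (by norm_num)]
    nlinarith
  have h9 : (0 : ℝ) < (1 / 2) ^ (n / 4) := by positivity
  have h10 : (n : ℝ) * (1 / 2) ^ (n / 4) ≤ 1 := by
    have h11 : (n : ℝ) ≤ 2 ^ (n / 4) := by
      have h12 : n ≤ 2 ^ (n / 4) := by
        calc n ≤ n + 1 := Nat.le_succ n
          _ ≤ 2 ^ (2 * q) := h6
          _ ≤ 2 ^ (n / 4) := Nat.pow_le_pow_right (by norm_num) (by nlinarith)
      exact_mod_cast h12
    rw [one_div, inv_pow, ← div_eq_mul_inv, div_le_one (by positivity)]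
    exact h11
  have h13 : ((1 : ℝ) + (1 / 2) ^ (n / 4)) ^ n - 1 ≤ 2 * (n * (1 / 2) ^ (n / 4)) := by
    have h14 : ((1 : ℝ) + (1 / 2) ^ (n / 4)) ^ n ≤ Real.exp (n * (1 / 2) ^ (n / 4)) := by
      rw [Real.exp_nat_mul]
      refine pow_le_pow_left₀ (by positivity) ?_ n
      rw [add_comm]
      exact Real.add_one_le_exp _
    have h15 := Real.abs_exp_sub_one_le (x := n * (1 / 2) ^ (n / 4)) (by
      rw [abs_of_nonneg (by positivity)]
      exact h10)
    rw [abs_of_nonneg (a := (n : ℝ) * (1 / 2) ^ (n / 4)) (by positivity)] at h15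
    have h16 := le_trans (le_abs_self _) h15
    linarith
  have hB : ((n : ℝ) + 1) ^ (2 * r + 3) * ((1 + (1 / 2) ^ (n / 4)) ^ n - 1) ≤ (1 / 2) ^ r := by
    calc ((n : ℝ) + 1) ^ (2 * r + 3) * ((1 + (1 / 2) ^ (n / 4)) ^ n - 1)
        ≤ ((n : ℝ) + 1) ^ (2 * r + 3) * (2 * (n * (1 / 2) ^ (n / 4))) :=
          mul_le_mul_of_nonneg_left h13 (by positivity)
      _ ≤ ((n : ℝ) + 1) ^ (2 * r + 3) * (2 * ((n + 1) * (1 / 2) ^ (n / 4))) := by
          gcongr
          linarith
      _ = ((n : ℝ) + 1) ^ (2 * r + 4) * (2 * (1 / 2) ^ (n / 4)) := by ring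
      _ ≤ 2 ^ (2 * q * (2 * r + 4)) * (2 * (1 / 2) ^ (n / 4)) := by
          refine mul_le_mul_of_nonneg_right ?_ (by positivity)
          exact_mod_cast h7
      _ ≤ 2 ^ (2 * q * (2 * r + 4)) * (2 * (1 / 2) ^ (2 * q * (2 * r + 4) + 1 + r)) := by
          have := pow_le_pow_of_le_one (a := (1 / 2 : ℝ)) (by norm_num) (by norm_num) h8
          gcongr
      _ = (1 / 2) ^ r := by
          rw [pow_add, pow_add]
          have h17 : (2 : ℝ) ^ (2 * q * (2 * r + 4)) * (1 / 2) ^ (2 * q * (2 * r + 4)) = 1 := by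
            rw [← mul_pow]
            norm_num
          calc _ = ((2 : ℝ) ^ (2 * q * (2 * r + 4)) * (1 / 2) ^ (2 * q * (2 * r + 4))) *
                (1 / 2) ^ r := by ring
            _ = _ := by rw [h17, one_mul]
  linarith

open Classical in
/-- the proportion of graphs which have a stable cutset or a large stable set -/
theorem bad_fraction {r n : ℕ} (hr : 640 ≤ r) (h1 : r * r ≤ n) (h2 : n < (r + 1) * (r + 1)) :
    (((univ : Finset (SimpleGraph (Fin n))).filter
      fun H => 2 * r + 3 ≤ H.indepNum ∨ ¬ NoStableCutset H).card : ℝ) ≤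
      Fintype.card (SimpleGraph (Fin n)) * (2 * (1 / 2) ^ r) := by
  refine (bad_count n (2 * r + 3) (n / 4) (by nlinarith) ?_).trans
    (mul_le_mul_of_nonneg_left (numeric hr h1 h2) (by positivity))
  have h3 : 4 * (n / 4) ≤ n := Nat.mul_div_le n 4
  have h4 : 2 * (2 * r + 3) ≤ n := by nlinarith
  omega

open Classical in
/-- **Almost all graphs.** -/
theorem almost_all :
    Tendsto (fun n : ℕ => (((univ : Finset (SimpleGraph (Fin n))).filter fun H =>
      deltaCyc H = thr (n - H.indepNum)).card : ℝ) /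
        Fintype.card (SimpleGraph (Fin n))) atTop (𝓝 1) := by
  have hgood : ∀ r n : ℕ, 640 ≤ r → r * r ≤ n → n < (r + 1) * (r + 1) →
      1 - 2 * (1 / 2 : ℝ) ^ r ≤ (((univ : Finset (SimpleGraph (Fin n))).filter fun H =>
      deltaCyc H = thr (n - H.indepNum)).card : ℝ) /
        Fintype.card (SimpleGraph (Fin n)) := by
    intro r n hr h1 h2
    have hN : (0 : ℝ) < Fintype.card (SimpleGraph (Fin n)) := by
      have : 0 < Fintype.card (SimpleGraph (Fin n)) := Fintype.card_pos
      exact_mod_cast this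
    rw [le_div_iff₀ hN]
    have h3 := bad_fraction hr h1 h2
    have h4 : (Fintype.card (SimpleGraph (Fin n))) ≤
        ((univ : Finset (SimpleGraph (Fin n))).filter
          fun H => 2 * r + 3 ≤ H.indepNum ∨ ¬ NoStableCutset H).card +
        ((univ : Finset (SimpleGraph (Fin n))).filter fun H =>
          deltaCyc H = thr (n - H.indepNum)).card := by
      rw [← Finset.card_univ]
      refine (Finset.card_le_card ?_).trans (Finset.card_union_le _ _)
      intro H _
      rw [mem_union, mem_filter, mem_filter]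
      by_cases hH : 2 * r + 3 ≤ H.indepNum ∨ ¬ NoStableCutset H
      · exact Or.inl ⟨mem_univ _, hH⟩
      · right
        refine ⟨mem_univ _, ?_⟩
        push Not at hH
        obtain ⟨h5, h6⟩ := hH
        have h7 := extIndex_of_noStableCutset h6
        rw [Fintype.card_fin] at h7
        have h8 : 2 * (2 * r + 3) ≤ n := by nlinarith
        have h9 : extIndex H = n - H.indepNum := by
          rw [h7]
          exact max_eq_left (by omega)
        have h10 := exact_dense h6 (by omega)
        rw [h10, h9]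
        rfl
    have h5 : (Fintype.card (SimpleGraph (Fin n)) : ℝ) ≤
        (((univ : Finset (SimpleGraph (Fin n))).filter
          fun H => 2 * r + 3 ≤ H.indepNum ∨ ¬ NoStableCutset H).card : ℝ) +
        (((univ : Finset (SimpleGraph (Fin n))).filter fun H =>
          deltaCyc H = thr (n - H.indepNum)).card : ℝ) := by exact_mod_cast h4
    nlinarith
  have hsqrt : Tendsto (fun n : ℕ => Nat.sqrt n) atTop atTop := by
    rw [tendsto_atTop]
    intro b
    filter_upwards [eventually_ge_atTop (b * b)] with n hn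
    exact Nat.le_sqrt.2 hn
  have hlow : Tendsto (fun n : ℕ => 1 - 2 * (1 / 2 : ℝ) ^ (Nat.sqrt n)) atTop (𝓝 1) := by
    have h1 : Tendsto (fun r : ℕ => (1 / 2 : ℝ) ^ r) atTop (𝓝 0) :=
      tendsto_pow_atTop_nhds_zero_of_lt_one (by norm_num) (by norm_num)
    have h2 := (h1.comp hsqrt).const_mul 2
    have h3 := h2.const_sub 1
    simpa using h3
  refine tendsto_of_tendsto_of_tendsto_of_le_of_le' hlow tendsto_const_nhds ?_ ?_
  · filter_upwards [hsqrt.eventually_ge_atTop 640] with n hn
    exact hgood (Nat.sqrt n) n hn (Nat.sqrt_le n) (Nat.lt_succ_sqrt n)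
  · filter_upwards with n
    refine div_le_one_of_le₀ ?_ (by positivity)
    have := Finset.card_le_univ ((univ : Finset (SimpleGraph (Fin n))).filter fun H =>
      deltaCyc H = thr (n - H.indepNum))
    exact_mod_cast this

end Pool.Agent.H54.PD
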